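import Pool.Agent.LibSC93.T1
import Pool.Agent.LibPL63.V1
import Pool.Agent.LibPL63.V2

/-!
LibGL22T (MP_ff81b6_nt, GapLaws v2, block T): definitions.

`b` bins; `BCb b m` is the interface (proved in LibGL22 for `b = 4 m - 3`): `h j` = the `k0` positions in the bin `j`, `K` = all other positions.
-/

open Finset Filter

namespace Pool.Agent.LibGL22T

open Pool.Agent.LibRG87 Pool.Agent.LibLG5 Pool.Agent.LibPL63 Pool.Agent.LibSC93

/-- the interface: primes in at least `m` of the `b` bins, no prime among the positions of `K`, at most `M0` rough ones -/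
def BCb (b m : ℕ) : Prop := ∃ k0 : ℕ, 1 ≤ k0 ∧ ∀ Λ : ℝ, 1 ≤ Λ → ∃ (q M0 : ℕ) (κ : ℝ), 1 ≤ q ∧ 0 < κ ∧
  ∃ z0 : ℕ, ∀ z : ℕ, z0 ≤ z → ∃ p1 : ℕ, p1.Prime ∧ ∀ c : ℕ, ∀ (h : Fin b → Finset ℕ) (K : Finset ℕ),
    (∀ j, (h j).card = k0) → Pairwise (Function.onFun Disjoint h) → Disjoint (univ.biUnion h) K →
    (∀ a ∈ univ.biUnion h ∪ K, (a : ℝ) ≤ Real.log z ^ 2 ∧ (c + a).Coprime (Wp z p1)) →
    K.card * V1p (P0 z p1) ≤ 4 * Λ * q →
    κ * (VP (P0 z p1) (univ.biUnion h) / Wp z p1) * (z : ℝ) ^ q ≤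
      ∑ n ∈ (Ioc (z ^ q) (2 * z ^ q)).filter (fun n => n ≡ c [MOD Wp z p1]),
        (rhoP (P0 z p1) (univ.biUnion h) n *
          if m ≤ (univ.filter fun j => ∃ a ∈ h j, (n + a).Prime).card ∧ (∀ a ∈ K, ¬ (n + a).Prime) ∧
          (K.filter fun a => ∀ p ∈ P0 z p1, ¬ p ∣ n + a).card ≤ M0 then 1 else 0)

/-- the event in terms of natural numbers: all primes `n + a`, `1 ≤ a ≤ T`, have `a` in a bin `(u j, v j]`, and at least `m` bins contain one -/
def Gb {b : ℕ} (m : ℕ) (u v : Fin b → ℕ) (T n : ℕ) : Prop :=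
  (∀ a, 1 ≤ a → a ≤ T → (n + a).Prime → ∃ j, u j < a ∧ a ≤ v j) ∧
  m ≤ (univ.filter fun j : Fin b => ∃ a ∈ Ioc (u j) (v j), (n + a).Prime).card

/-- the set of positions of the bin `j` in the configuration `g` -/
def hs {b k0 : ℕ} (g : Fin b × Fin k0 → ℕ) (j : Fin b) : Finset ℕ := univ.image fun i : Fin k0 => g (j, i)

/-- the term of the configuration `g` -/
noncomputable def tmb {b k0 : ℕ} (m M0 z p1 c T n : ℕ) (g : Fin b × Fin k0 → ℕ) : ℝ :=
  rhoP (P0 z p1) (univ.biUnion (hs g)) n *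
    if m ≤ (univ.filter fun j => ∃ a ∈ hs g j, (n + a).Prime).card ∧
      (∀ a ∈ Jc c (Wp z p1) 0 T \ univ.biUnion (hs g), ¬ (n + a).Prime) ∧
      ((Jc c (Wp z p1) 0 T \ univ.biUnion (hs g)).filter fun a => ∀ p ∈ P0 z p1, ¬ p ∣ n + a).card ≤ M0 then 1 else 0

open scoped Classical in
/-- the event of the final statement: all primes of `(n, n + L log n]` lie in the bins, at least `m` bins contain one of them -/
def Evb {b : ℕ} (m : ℕ) (t : Fin b → ℝ) (ε L : ℝ) (n : ℕ) : Prop :=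
  (∀ p ∈ (Ioc n ⌊(n : ℝ) + L * Real.log n⌋₊).filter Nat.Prime,
    ∃ i, t i * Real.log n < (p : ℝ) - n ∧ (p : ℝ) - n < (t i + ε) * Real.log n) ∧
  m ≤ (univ.filter fun i : Fin b => ∃ p ∈ (Ioc n ⌊(n : ℝ) + L * Real.log n⌋₊).filter Nat.Prime,
    t i * Real.log n < (p : ℝ) - n ∧ (p : ℝ) - n < (t i + ε) * Real.log n).card

/-- the number of the first `N` gaps which are, in units of `log`, `ε`-close to `τ` -/
noncomputable def gc (τ ε : ℝ) (N : ℕ) : ℕ :=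
  ((range N).filter fun k => |(Nat.nth Nat.Prime (k + 1) : ℝ) - Nat.nth Nat.Prime k -
    τ * Real.log (Nat.nth Nat.Prime k)| < ε * Real.log (Nat.nth Nat.Prime k)).card

/-- the `τ` which are approached by a positive proportion of the normalized gaps, along the sequence `φ` -/
def LSet (φ : ℕ → ℕ) : Set ℝ :=
  {τ | ∀ ε : ℝ, 0 < ε → ∃ c : ℝ, 0 < c ∧ ∃ᶠ j in atTop, c * φ j ≤ (gc τ ε (φ j) : ℝ)}

end Pool.Agent.LibGL22T
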