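import Pool.Agent.LibGL22T.Defs

/-!
Row A1 (one class). Almost verbatim the finished `LibSC93.T2` (`tm_le_one`, `tm_ne`, `tm_Gd`, `T2_point`, `T2_sum`; copy them), with `tmb` in place of `tm`, the configurations `g : Fin b × Fin k0 → ℕ`
in `Fintype.piFinset (fun i => Jc c (Wp z p1) (U i) (V i))`, the number of windows `k = b * k0`. `g` is injective by `hUV`; the sets `hs g j` have `k0` elements, are pairwise disjoint, and
`univ.biUnion (hs g) = univ.image g` has `b * k0` elements. `H` is applied with `h = hs g`, `K = Jc c (Wp z p1) 0 T \ univ.biUnion (hs g)`.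
A non-zero term gives the event `Gb m u v T n`: a prime `n + a`, `1 ≤ a ≤ T`: if `c + a` is coprime to `Wp` then `a ∈ univ.biUnion (hs g)`, so `a ∈ (U i, V i] ⊆ (u j, v j]` (`hsub`); otherwise a prime `r ≤ wf z` divides
`n + a`, so `n + a = r ≤ wf z < z ≤ z ^ q < n` (`hwz`, `hq`), a contradiction. The number of `g` with a non-zero term is at most `(b k0 + M0)^(b k0)`.
-/

open Finset Filter

namespace Pool.Agent.LibGL22T

open Pool.Agent.LibRG87 Pool.Agent.LibLG5 Pool.Agent.LibPL63 Pool.Agent.LibSC93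

private theorem A1_le_one {b k0 : ℕ} (m M0 z p1 c T n : ℕ) (g : Fin b × Fin k0 → ℕ) :
    tmb m M0 z p1 c T n g ≤ 1 := by
  unfold tmb
  have h1 := rhoP_nonneg (P0 z p1) (univ.biUnion (hs g)) n
  split_ifs
  · rw [mul_one]
    exact h1.2
  · rw [mul_zero]
    exact zero_le_one

private theorem A1_ne {b k0 m M0 z p1 c T n : ℕ} {g : Fin b × Fin k0 → ℕ}
    (hne : tmb m M0 z p1 c T n g ≠ 0) :
    (∀ a ∈ univ.biUnion (hs g), ∀ p ∈ P0 z p1, ¬ p ∣ n + a) ∧
    m ≤ (univ.filter fun j => ∃ a ∈ hs g j, (n + a).Prime).card ∧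
    (∀ a ∈ Jc c (Wp z p1) 0 T \ univ.biUnion (hs g), ¬ (n + a).Prime) ∧
    ((Jc c (Wp z p1) 0 T \ univ.biUnion (hs g)).filter fun a =>
      ∀ p ∈ P0 z p1, ¬ p ∣ n + a).card ≤ M0 := by
  unfold tmb at hne
  have h1 := left_ne_zero_of_mul hne
  have h2 := right_ne_zero_of_mul hne
  unfold rhoP at h1
  refine ⟨?_, ?_⟩
  · by_contra hh
    exact h1 (if_neg hh)
  · by_contra hh
    exact h2 (if_neg hh)

private theorem A1_mem {b k0 : ℕ} {g : Fin b × Fin k0 → ℕ} {a : ℕ} :
    a ∈ univ.biUnion (hs g) ↔ ∃ i, g i = a := by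
  rw [Finset.mem_biUnion]
  constructor
  · rintro ⟨j, _, hj⟩
    unfold hs at hj
    rw [Finset.mem_image] at hj
    obtain ⟨i, _, hi⟩ := hj
    exact ⟨(j, i), hi⟩
  · rintro ⟨⟨j, i⟩, hi⟩
    refine ⟨j, Finset.mem_univ _, ?_⟩
    unfold hs
    rw [Finset.mem_image]
    exact ⟨i, Finset.mem_univ _, hi⟩

private theorem A1_biUnion {b k0 : ℕ} (g : Fin b × Fin k0 → ℕ) :
    univ.biUnion (hs g) = univ.image g := by
  ext a
  rw [A1_mem, Finset.mem_image]
  constructor
  · rintro ⟨i, hi⟩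
    exact ⟨i, Finset.mem_univ _, hi⟩
  · rintro ⟨i, _, hi⟩
    exact ⟨i, hi⟩

private theorem A1_inj {b k0 : ℕ} {U V g : Fin b × Fin k0 → ℕ}
    (hUV : ∀ i i', i ≠ i' → V i ≤ U i' ∨ V i' ≤ U i) (hg : ∀ i, U i < g i ∧ g i ≤ V i) :
    Function.Injective g := by
  intro i i' h
  by_contra hne
  have h1 := hg i
  have h2 := hg i'
  rcases hUV i i' hne with h3 | h3 <;> omega

private theorem A1_Gb {b k0 m M0 z p1 c T n q : ℕ} {u v : Fin b → ℕ}
    {U V : Fin b × Fin k0 → ℕ} (hn : n ≡ c [MOD Wp z p1]) (hq : 1 ≤ q) (hwz : wf z < z)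
    (hnz : z ^ q < n) (hsub : ∀ j i, u j ≤ U (j, i) ∧ V (j, i) ≤ v j)
    {g : Fin b × Fin k0 → ℕ} (hg : ∀ i, U i < g i ∧ g i ≤ V i)
    (hne : tmb m M0 z p1 c T n g ≠ 0) : Gb m u v T n := by
  obtain ⟨_, h2, h3, _⟩ := A1_ne hne
  have hzn : wf z < n := by
    have h4 : z ≤ z ^ q := Nat.le_self_pow (by omega) z
    omega
  refine ⟨?_, ?_⟩
  · intro a ha1 haT hap
    by_cases hc : (c + a).Coprime (Wp z p1)
    · by_contra hno
      push Not at hno
      refine h3 a ?_ hap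
      rw [Finset.mem_sdiff, mem_Jc]
      refine ⟨⟨⟨by omega, haT⟩, hc⟩, ?_⟩
      rw [A1_mem]
      rintro ⟨⟨j, i⟩, hi⟩
      have h4 := hg (j, i)
      have h5 := hsub j i
      have h6 := hno j (by omega)
      omega
    · exfalso
      obtain ⟨r, hr, hr1, hr2⟩ := Nat.Prime.not_coprime_iff_dvd.mp hc
      have h4 := ((dvd_Wp hr).1 hr2).1
      have h5 : r ∣ n + a := by
        have h6 : n + a ≡ c + a [MOD r] := (hn.add_right a).of_dvd hr2
        exact (h6.dvd_iff dvd_rfl).2 hr1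
      have h7 := (Nat.prime_dvd_prime_iff_eq hr hap).1 h5
      omega
  · refine h2.trans (Finset.card_le_card ?_)
    intro j hj
    rw [Finset.mem_filter] at hj ⊢
    obtain ⟨a, ha, hap⟩ := hj.2
    refine ⟨Finset.mem_univ _, a, ?_, hap⟩
    unfold hs at ha
    rw [Finset.mem_image] at ha
    obtain ⟨i, _, hi⟩ := ha
    have h4 := hg (j, i)
    have h5 := hsub j i
    rw [Finset.mem_Ioc]
    omega

private theorem A1_point {b k0 m M0 z p1 c T n q : ℕ} {u v : Fin b → ℕ}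
    {U V : Fin b × Fin k0 → ℕ} (hn : n ≡ c [MOD Wp z p1]) (hq : 1 ≤ q) (hwz : wf z < z)
    (hnz : z ^ q < n)
    (hsub : ∀ j i, u j ≤ U (j, i) ∧ V (j, i) ≤ v j)
    (hT : ∀ j, v j ≤ T) :
    ∑ g ∈ Fintype.piFinset (fun i => Jc c (Wp z p1) (U i) (V i)), tmb m M0 z p1 c T n g ≤
      (((b * k0 : ℕ) : ℝ) + M0) ^ (b * k0) *
        (open scoped Classical in if Gb m u v T n then 1 else 0) := by
  classical
  by_cases hex : ∃ g ∈ Fintype.piFinset (fun i => Jc c (Wp z p1) (U i) (V i)),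
      tmb m M0 z p1 c T n g ≠ 0
  · obtain ⟨g0, hg0, hne0⟩ := hex
    have hmem : ∀ g ∈ Fintype.piFinset (fun i => Jc c (Wp z p1) (U i) (V i)),
        (∀ i, U i < g i ∧ g i ≤ V i) ∧ ∀ i, (c + g i).Coprime (Wp z p1) := by
      intro g hg
      rw [Fintype.mem_piFinset] at hg
      exact ⟨fun i => (mem_Jc.1 (hg i)).1, fun i => (mem_Jc.1 (hg i)).2⟩
    rw [if_pos (A1_Gb hn hq hwz hnz hsub (hmem g0 hg0).1 hne0), mul_one]
    set R := (Jc c (Wp z p1) 0 T).filter fun a => ∀ p ∈ P0 z p1, ¬ p ∣ n + a with hR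
    have hRcard : R.card ≤ b * k0 + M0 := by
      have h1 : R ⊆ univ.image g0 ∪
          (Jc c (Wp z p1) 0 T \ univ.biUnion (hs g0)).filter
            fun a => ∀ p ∈ P0 z p1, ¬ p ∣ n + a := by
        intro a ha
        rw [hR, Finset.mem_filter] at ha
        rw [Finset.mem_union, Finset.mem_filter, Finset.mem_sdiff, A1_biUnion]
        by_cases hi : a ∈ univ.image g0
        · exact Or.inl hi
        · exact Or.inr ⟨⟨ha.1, hi⟩, ha.2⟩
      refine (Finset.card_le_card h1).trans ((Finset.card_union_le _ _).trans ?_)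
      have h2 : (univ.image g0).card ≤ b * k0 := by
        refine Finset.card_image_le.trans ?_
        rw [Finset.card_univ, Fintype.card_prod, Fintype.card_fin, Fintype.card_fin]
      exact Nat.add_le_add h2 (A1_ne hne0).2.2.2
    have h3 : ∑ g ∈ Fintype.piFinset (fun i => Jc c (Wp z p1) (U i) (V i)),
        tmb m M0 z p1 c T n g ≤
        ∑ g ∈ Fintype.piFinset (fun i => Jc c (Wp z p1) (U i) (V i)),
          if g ∈ Fintype.piFinset (fun _ : Fin b × Fin k0 => R) then (1 : ℝ) else 0 := by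
      refine Finset.sum_le_sum fun g hg => ?_
      by_cases hne : tmb m M0 z p1 c T n g = 0
      · rw [hne]
        split_ifs
        · exact zero_le_one
        · exact le_rfl
      · rw [if_pos]
        · exact A1_le_one _ _ _ _ _ _ _ _
        · rw [Fintype.mem_piFinset]
          intro i
          rw [hR, Finset.mem_filter, mem_Jc]
          have h4 := (hmem g hg).1 i
          have h5 := (hsub i.1 i.2).2
          have h6 := hT i.1
          exact ⟨⟨⟨by omega, (h4.2.trans h5).trans h6⟩, (hmem g hg).2 i⟩,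
            (A1_ne hne).1 (g i) (A1_mem.mpr ⟨i, rfl⟩)⟩
    refine h3.trans ?_
    rw [Finset.sum_ite, Finset.sum_const_zero, add_zero, Finset.sum_const, nsmul_eq_mul, mul_one]
    have h5 : ((Fintype.piFinset (fun i => Jc c (Wp z p1) (U i) (V i))).filter
        fun g => g ∈ Fintype.piFinset (fun _ : Fin b × Fin k0 => R)).card ≤ R.card ^ (b * k0) := by
      refine (Finset.card_le_card (fun g hg => (Finset.mem_filter.1 hg).2)).trans ?_
      rw [Fintype.card_piFinset, Finset.prod_const, Finset.card_univ, Fintype.card_prod,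
        Fintype.card_fin, Fintype.card_fin]
    calc _ ≤ ((R.card ^ (b * k0) : ℕ) : ℝ) := by exact_mod_cast h5
      _ ≤ (((b * k0 + M0) ^ (b * k0) : ℕ) : ℝ) := by exact_mod_cast Nat.pow_le_pow_left hRcard _
      _ = (((b * k0 : ℕ) : ℝ) + M0) ^ (b * k0) := by push_cast; rfl
  · push Not at hex
    rw [Finset.sum_eq_zero hex]
    refine mul_nonneg (by positivity) ?_
    split_ifs
    · exact zero_le_one
    · exact le_rfl

open scoped Classical in
theorem cls_sum {b k0 m q M0 z p1 c T : ℕ} {Lam kap : ℝ} {u v : Fin b → ℕ} {U V : Fin b × Fin k0 → ℕ}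
    (hkap : 0 ≤ kap) (hq : 1 ≤ q) (hwz : wf z < z)
    (H : ∀ (h : Fin b → Finset ℕ) (K : Finset ℕ),
      (∀ j, (h j).card = k0) → Pairwise (Function.onFun Disjoint h) → Disjoint (univ.biUnion h) K →
      (∀ a ∈ univ.biUnion h ∪ K, (a : ℝ) ≤ Real.log z ^ 2 ∧ (c + a).Coprime (Wp z p1)) →
      K.card * V1p (P0 z p1) ≤ 4 * Lam * q →
      kap * (VP (P0 z p1) (univ.biUnion h) / Wp z p1) * (z : ℝ) ^ q ≤
        ∑ n ∈ (Ioc (z ^ q) (2 * z ^ q)).filter (fun n => n ≡ c [MOD Wp z p1]),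
          (rhoP (P0 z p1) (univ.biUnion h) n *
            if m ≤ (univ.filter fun j => ∃ a ∈ h j, (n + a).Prime).card ∧ (∀ a ∈ K, ¬ (n + a).Prime) ∧
            (K.filter fun a => ∀ p ∈ P0 z p1, ¬ p ∣ n + a).card ≤ M0 then 1 else 0))
    (hUV : ∀ i i', i ≠ i' → V i ≤ U i' ∨ V i' ≤ U i) (hsub : ∀ j i, u j ≤ U (j, i) ∧ V (j, i) ≤ v j)
    (hT : ∀ j, v j ≤ T) (hTz : (T : ℝ) ≤ Real.log z ^ 2)
    (hA : ((Jc c (Wp z p1) 0 T).card : ℝ) * V1p (P0 z p1) ≤ 4 * Lam * q)
    (hVP : ∀ B : Finset ℕ, B.card ≤ b * k0 → V1p (P0 z p1) ^ B.card / 2 ≤ VP (P0 z p1) B) :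
    kap * ((∏ i, ((Jc c (Wp z p1) (U i) (V i)).card : ℝ)) * V1p (P0 z p1) ^ (b * k0) / 2 / Wp z p1) * (z : ℝ) ^ q ≤
      (((b * k0 : ℕ) : ℝ) + M0) ^ (b * k0) *
        (((Ioc (z ^ q) (2 * z ^ q)).filter fun n => n ≡ c [MOD Wp z p1] ∧ Gb m u v T n).card : ℝ) := by
  classical
  set PF := Fintype.piFinset (fun i => Jc c (Wp z p1) (U i) (V i)) with hPF
  have hV1 : 0 ≤ V1p (P0 z p1) := (V1p_pos _ fun p hp => (mem_P0.1 hp).2.1).le
  have hmem : ∀ g ∈ PF, (∀ i, U i < g i ∧ g i ≤ V i) ∧ ∀ i, (c + g i).Coprime (Wp z p1) := by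
    intro g hg
    rw [hPF, Fintype.mem_piFinset] at hg
    exact ⟨fun i => (mem_Jc.1 (hg i)).1, fun i => (mem_Jc.1 (hg i)).2⟩
  have h1 : ∀ g ∈ PF, kap * (V1p (P0 z p1) ^ (b * k0) / 2 / Wp z p1) * (z : ℝ) ^ q ≤
      ∑ n ∈ (Ioc (z ^ q) (2 * z ^ q)).filter (fun n => n ≡ c [MOD Wp z p1]),
        tmb m M0 z p1 c T n g := by
    intro g hg
    have hgm := (hmem g hg).1
    have hinj : Function.Injective g := A1_inj hUV hgm
    have hcard : (univ.biUnion (hs g)).card = b * k0 := by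
      rw [A1_biUnion, Finset.card_image_of_injective _ hinj, Finset.card_univ, Fintype.card_prod,
        Fintype.card_fin, Fintype.card_fin]
    have h2 := H (hs g) (Jc c (Wp z p1) 0 T \ univ.biUnion (hs g)) ?_ ?_
      Finset.disjoint_sdiff ?_ ?_
    · refine le_trans ?_ h2
      refine mul_le_mul_of_nonneg_right ?_ (by positivity)
      refine mul_le_mul_of_nonneg_left ?_ hkap
      refine div_le_div_of_nonneg_right ?_ (Nat.cast_nonneg _)
      have h3 := hVP (univ.biUnion (hs g)) hcard.le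
      rwa [hcard] at h3
    · intro j
      unfold hs
      rw [Finset.card_image_of_injective, Finset.card_univ, Fintype.card_fin]
      intro i i' hii
      have h3 := hinj hii
      exact (Prod.mk.inj h3).2
    · intro j j' hjj
      change Disjoint (hs g j) (hs g j')
      rw [Finset.disjoint_left]
      intro a ha ha'
      unfold hs at ha ha'
      rw [Finset.mem_image] at ha ha'
      obtain ⟨i, _, hi⟩ := ha
      obtain ⟨i', _, hi'⟩ := ha'
      have h3 : (j, i) = (j', i') := hinj (hi.trans hi'.symm)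
      exact hjj (Prod.mk.inj h3).1
    · intro a ha
      have h4 : a ∈ Jc c (Wp z p1) 0 T := by
        rw [Finset.mem_union] at ha
        rcases ha with ha | ha
        · rw [A1_mem] at ha
          obtain ⟨i, rfl⟩ := ha
          rw [mem_Jc]
          have h5 := hgm i
          have h6 := (hsub i.1 i.2).2
          have h7 := hT i.1
          exact ⟨⟨by omega, (h5.2.trans h6).trans h7⟩, (hmem g hg).2 i⟩
        · exact (Finset.mem_sdiff.1 ha).1
      rw [mem_Jc] at h4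
      refine ⟨?_, h4.2⟩
      have h6 : (a : ℝ) ≤ T := by exact_mod_cast h4.1.2
      exact h6.trans hTz
    · refine le_trans ?_ hA
      refine mul_le_mul_of_nonneg_right ?_ hV1
      exact_mod_cast Finset.card_le_card Finset.sdiff_subset
  have h7 := Finset.sum_le_sum h1
  rw [Finset.sum_const, nsmul_eq_mul, Finset.sum_comm] at h7
  have h8 : (PF.card : ℝ) = ∏ i, ((Jc c (Wp z p1) (U i) (V i)).card : ℝ) := by
    rw [hPF, Fintype.card_piFinset]
    push_cast
    rfl
  rw [h8] at h7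
  have h9 : ∑ n ∈ (Ioc (z ^ q) (2 * z ^ q)).filter (fun n => n ≡ c [MOD Wp z p1]), ∑ g ∈ PF,
      tmb m M0 z p1 c T n g ≤
      (((b * k0 : ℕ) : ℝ) + M0) ^ (b * k0) *
        ∑ n ∈ (Ioc (z ^ q) (2 * z ^ q)).filter (fun n => n ≡ c [MOD Wp z p1]),
          (if Gb m u v T n then 1 else 0) := by
    rw [Finset.mul_sum]
    refine Finset.sum_le_sum fun n hn => ?_
    rw [Finset.mem_filter, Finset.mem_Ioc] at hn
    exact A1_point hn.2 hq hwz hn.1.1 hsub hT
  have h10 : ∑ n ∈ (Ioc (z ^ q) (2 * z ^ q)).filter (fun n => n ≡ c [MOD Wp z p1]),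
      (if Gb m u v T n then (1 : ℝ) else 0) =
      (((Ioc (z ^ q) (2 * z ^ q)).filter fun n => n ≡ c [MOD Wp z p1] ∧ Gb m u v T n).card : ℝ)
      := by
    rw [Finset.sum_boole, Finset.filter_filter]
  rw [h10] at h9
  refine le_trans (le_of_eq ?_) (h7.trans h9)
  ring

end Pool.Agent.LibGL22T
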