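import Pool.Agent.LibGL22T.A1

/-!
Row A2 (all classes). As the finished `LibSC93.T3` (copy `T3_ev` with `U = 1` and the proof of `T3`), with `cls_sum` (row A1) in place of `T2_sum`. Subdivision of the bins: `d j = (v j - u j) / k0`,
`U (j, i) = u j + i * d j`, `V (j, i) = u j + (i + 1) * d j`; `d j ≥ (v j - u j)/k0 - 1 ≥ δ q log z/(2 k0)` for large `z`; so `Jc_lower` gives `≥ δ q log z/(4 k0) * φ(Wp)/Wp` elements (`Wp ≤ δ q log z/(4 k0)` for
large `z`, as in `T3_ev` with `δ/(2 k0)` in place of `δ`). Sum over the classes `c < Wp`: the sets `{n ≡ c}` are disjoint with union everything (`sum_clsU`, same proof; or `Finset.card_eq_sum_card_fiberwise`).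
`k = b * k0` if `b = 0` the statement is the case `k = 0` of the same computation (products over the empty type are `1`).
-/

open Finset Filter

namespace Pool.Agent.LibGL22T

open Pool.Agent.LibRG87 Pool.Agent.LibLG5 Pool.Agent.LibPL63 Pool.Agent.LibSC93

/-- the conditions on `z` -/
private theorem A2_ev (L δ q U : ℝ) (hL : 1 ≤ L) (hδ : 0 < δ) (hq : 1 ≤ q) (hU : 0 ≤ U) :
    ∀ᶠ z : ℕ in atTop, 4 ≤ z ∧ 1 ≤ Real.log z ∧ L * (q * Real.log z + U) ≤ Real.log z ^ 2 ∧
      ∀ p1 : ℕ, (Wp z p1 : ℝ) ≤ δ * (q * Real.log z) / 2 ∧ L * U + Wp z p1 ≤ L * (q * Real.log z) := by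
  have h1 : ∀ᶠ z : ℕ in atTop, max (max 1 (L * (q + U))) (max (8 / (δ * q) ^ 2) (2 * U + 8)) ≤
      Real.log z :=
    (Real.tendsto_log_atTop.comp tendsto_natCast_atTop_atTop).eventually_ge_atTop _
  filter_upwards [eventually_ge_atTop 4, h1] with z hz hx
  have hx1 : 1 ≤ Real.log z := (le_max_left _ _).trans ((le_max_left _ _).trans hx)
  have hxJ : L * (q + U) ≤ Real.log z := (le_max_right _ _).trans ((le_max_left _ _).trans hx)
  have hxA : 8 / (δ * q) ^ 2 ≤ Real.log z := (le_max_left _ _).trans ((le_max_right _ _).trans hx)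
  have hxU : 2 * U + 8 ≤ Real.log z := (le_max_right _ _).trans ((le_max_right _ _).trans hx)
  set x := Real.log z with hxdef
  have hlog2 : (1 / 2 : ℝ) < Real.log 2 := by
    have := Real.log_two_gt_d9
    linarith
  have hx0 : 0 < x := by linarith
  refine ⟨hz, hx1, ?_, fun p1 => ?_⟩
  · calc L * (q * x + U) ≤ L * (q * x + U * x) := by
          refine mul_le_mul_of_nonneg_left ?_ (by linarith)
          nlinarith
      _ = L * (q + U) * x := by ring
      _ ≤ x * x := mul_le_mul_of_nonneg_right hxJ hx0.le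
      _ = x ^ 2 := by ring
  · have hW2 : (Wp z p1 : ℝ) ^ 2 ≤ 2 * x := by
      refine (Wp_le hz p1).trans ?_
      rw [div_le_iff₀ (by linarith)]
      nlinarith
    have hW0 : (0 : ℝ) ≤ (Wp z p1 : ℝ) := Nat.cast_nonneg _
    have hdq : 0 < δ * q := by positivity
    constructor
    · refine (pow_le_pow_iff_left₀ hW0 (by positivity) two_ne_zero).mp ?_
      refine hW2.trans ?_
      rw [div_le_iff₀ (by positivity)] at hxA
      have h2 : (δ * (q * x) / 2) ^ 2 = (x * (δ * q) ^ 2) * x / 4 := by ring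
      rw [h2]
      have h3 : 8 * x ≤ (x * (δ * q) ^ 2) * x := mul_le_mul_of_nonneg_right hxA hx0.le
      linarith
    · have hWx : (Wp z p1 : ℝ) ≤ x / 2 := by
        refine (pow_le_pow_iff_left₀ hW0 (by positivity) two_ne_zero).mp ?_
        refine hW2.trans ?_
        nlinarith
      have h4 : L * U + Wp z p1 ≤ L * (U + Wp z p1) := by nlinarith
      refine h4.trans (mul_le_mul_of_nonneg_left ?_ (by linarith))
      nlinarith

private theorem A2_win {b k0 : ℕ} {u v : Fin b → ℕ} (huv : ∀ j, u j ≤ v j) (hwin : ∀ i j, i < j → v i ≤ u j)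
    (i i' : Fin b × Fin k0) (hne : i ≠ i') :
    u i.1 + (i.2 + 1) * ((v i.1 - u i.1) / k0) ≤ u i'.1 + i'.2 * ((v i'.1 - u i'.1) / k0) ∨
      u i'.1 + (i'.2 + 1) * ((v i'.1 - u i'.1) / k0) ≤ u i.1 + i.2 * ((v i.1 - u i.1) / k0) := by
  have hV : ∀ i : Fin b × Fin k0, u i.1 + (i.2 + 1) * ((v i.1 - u i.1) / k0) ≤ v i.1 := by
    intro i
    have h1 : (i.2 + 1) * ((v i.1 - u i.1) / k0) ≤ k0 * ((v i.1 - u i.1) / k0) :=
      Nat.mul_le_mul_right _ i.2.2
    have h2 : k0 * ((v i.1 - u i.1) / k0) ≤ v i.1 - u i.1 := Nat.mul_div_le _ _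
    have h3 := huv i.1
    omega
  obtain ⟨j, i⟩ := i
  obtain ⟨j', i'⟩ := i'
  rcases lt_trichotomy j j' with h | h | h
  · exact Or.inl (((hV (j, i)).trans (hwin _ _ h)).trans (Nat.le_add_right _ _))
  · subst h
    rcases lt_trichotomy i i' with h | h | h
    · refine Or.inl (Nat.add_le_add_left (Nat.mul_le_mul_right _ ?_) _)
      exact h
    · exact absurd (by rw [h]) hne
    · refine Or.inr (Nat.add_le_add_left (Nat.mul_le_mul_right _ ?_) _)
      exact h
  · exact Or.inr (((hV (j', i')).trans (hwin _ _ h)).trans (Nat.le_add_right _ _))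

open scoped Classical in
private theorem A2_sum {W : ℕ} (hW : 0 < W) (s : Finset ℕ) (P : ℕ → Prop) :
    ∑ c ∈ range W, ((s.filter fun n => n ≡ c [MOD W] ∧ P n).card : ℝ) = ((s.filter P).card : ℝ) := by
  have h := Finset.card_eq_sum_card_fiberwise (s := s.filter P) (t := range W)
    (f := fun n => n % W) (fun n _ => Finset.mem_coe.2 (Finset.mem_range.2 (Nat.mod_lt n hW)))
  rw [h]
  push_cast
  refine Finset.sum_congr rfl fun c hc => ?_
  rw [Finset.mem_range] at hc
  congr 2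
  ext n
  rw [Finset.mem_filter, Finset.mem_filter, Finset.mem_filter, Nat.ModEq, Nat.mod_eq_of_lt hc]
  tauto

open scoped Classical in
theorem all_cls {b m : ℕ} (h : BCb b m) (L δ : ℝ) (hL : 1 ≤ L) (hδ : 0 < δ) :
    ∃ (q : ℕ) (κ : ℝ), 1 ≤ q ∧ 0 < κ ∧ ∀ᶠ z : ℕ in atTop, ∀ (u v : Fin b → ℕ) (T : ℕ),
      (∀ i j, i < j → v i ≤ u j) → (∀ i, v i ≤ T) →
      (∀ i, δ * (q * Real.log z) ≤ (v i : ℝ) - u i) → (T : ℝ) ≤ L * (q * Real.log z + 1) →
      κ * (z : ℝ) ^ q ≤ (((Ioc (z ^ q) (2 * z ^ q)).filter fun n => Gb m u v T n).card : ℝ) := by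
  obtain ⟨k0, hk0, hSC⟩ := h
  obtain ⟨c0, hc0, hlow⟩ := mert_lower
  obtain ⟨q, M0, kap, hq, hkap, z0, hz0⟩ := hSC L hL
  have hqR : (1 : ℝ) ≤ q := by exact_mod_cast hq
  have hkR : (1 : ℝ) ≤ k0 := by exact_mod_cast hk0
  have hkM : (0 : ℝ) < (((b * k0 : ℕ) : ℝ) + M0) ^ (b * k0) := by
    rcases Nat.eq_zero_or_pos (b * k0) with h0 | h0
    · rw [h0, pow_zero]
      exact one_pos
    · have : (0 : ℝ) < ((b * k0 : ℕ) : ℝ) := by exact_mod_cast h0
      positivity
  obtain ⟨δ', hδ'⟩ : ∃ δ' : ℝ, δ' = δ / (2 * k0) := ⟨_, rfl⟩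
  have hδ'0 : 0 < δ' := by
    rw [hδ']
    positivity
  refine ⟨q, kap * ((δ' * q * c0) ^ (b * k0) / 2) / (((b * k0 : ℕ) : ℝ) + M0) ^ (b * k0), hq,
    by positivity, ?_⟩
  filter_upwards [eventually_ge_atTop z0, A2_ev L δ' q 1 hL hδ'0 hqR zero_le_one, hlow, mert_upper,
    VP_ge_pow (b * k0)] with z hz hev hlo hup hVP u v T hwin hT hlen hTL
  obtain ⟨hz4, hlog, hlz2, hW⟩ := hev
  obtain ⟨p1, hp1, H⟩ := hz0 z hz
  obtain ⟨hW1, hW2⟩ := hW p1
  have hWpos := Wp_pos z p1
  have hWR : (0 : ℝ) < Wp z p1 := by exact_mod_cast hWpos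
  have hW1R : (1 : ℝ) ≤ Wp z p1 := by exact_mod_cast hWpos
  have hlogpos : 0 < Real.log z := by linarith
  have hV1 : 0 < V1p (P0 z p1) := V1p_pos _ fun p hp => (mem_P0.1 hp).2.1
  have hphi : 0 ≤ ((Wp z p1).totient : ℝ) / Wp z p1 := by positivity
  have huv : ∀ j, u j ≤ v j := by
    intro j
    have h1 : (0 : ℝ) ≤ δ * (q * Real.log z) := by positivity
    have h2 := hlen j
    have h3 : (u j : ℝ) ≤ v j := by linarith
    exact_mod_cast h3
  have hwz : wf z < z := by
    unfold wf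
    have h1 : Nat.log 2 (Nat.log 2 z) ≤ z := (Nat.log_le_self 2 _).trans (Nat.log_le_self 2 _)
    omega
  -- the length of the small windows
  have hd : ∀ j, 2 * δ' * (q * Real.log z) - 1 ≤ (((v j - u j) / k0 : ℕ) : ℝ) := by
    intro j
    have h1 : v j - u j < k0 * ((v j - u j) / k0 + 1) := Nat.lt_mul_div_succ _ (by omega)
    have h2 : ((v j : ℝ) - u j) < k0 * ((((v j - u j) / k0 : ℕ) : ℝ) + 1) := by
      have h3 : ((v j - u j : ℕ) : ℝ) < ((k0 * ((v j - u j) / k0 + 1) : ℕ) : ℝ) := by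
        exact_mod_cast h1
      rw [Nat.cast_sub (huv j), Nat.cast_mul, Nat.cast_add, Nat.cast_one] at h3
      exact h3
    have h4 := (hlen j).trans h2.le
    have h5 : 2 * δ' * (q * Real.log z) * k0 = δ * (q * Real.log z) := by
      rw [hδ']
      field_simp
    have h6 : 2 * δ' * (q * Real.log z) * k0 ≤ ((((v j - u j) / k0 : ℕ) : ℝ) + 1) * k0 := by
      rw [h5, mul_comm _ (k0 : ℝ)]
      exact h4
    have h7 := le_of_mul_le_mul_right h6 (by linarith)
    linarith
  -- one class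
  have hcls : ∀ c : ℕ, kap * ((δ' * q * c0) ^ (b * k0) / 2 / Wp z p1) * (z : ℝ) ^ q ≤
      (((b * k0 : ℕ) : ℝ) + M0) ^ (b * k0) *
        (((Ioc (z ^ q) (2 * z ^ q)).filter fun n => n ≡ c [MOD Wp z p1] ∧ Gb m u v T n).card : ℝ) := by
    intro c
    have h1 := cls_sum (b := b) (k0 := k0) (m := m) (q := q) (M0 := M0) (z := z) (p1 := p1) (c := c)
      (T := T) (Lam := L) (kap := kap) (u := u) (v := v)
      (U := fun i => u i.1 + i.2 * ((v i.1 - u i.1) / k0))
      (V := fun i => u i.1 + (i.2 + 1) * ((v i.1 - u i.1) / k0)) hkap.le hq hwz (H c)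
      (fun i i' hne => A2_win huv hwin i i' hne) ?_ hT (hTL.trans hlz2) ?_ (hVP p1 hp1)
    · refine le_trans ?_ h1
      refine mul_le_mul_of_nonneg_right ?_ (by positivity)
      refine mul_le_mul_of_nonneg_left ?_ hkap.le
      refine div_le_div_of_nonneg_right (div_le_div_of_nonneg_right ?_ (by norm_num)) hWR.le
      have h2 : ∀ i : Fin b × Fin k0, δ' * (q * Real.log z) * (((Wp z p1).totient : ℝ) / Wp z p1) ≤
          ((Jc c (Wp z p1) (u i.1 + i.2 * ((v i.1 - u i.1) / k0))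
            (u i.1 + (i.2 + 1) * ((v i.1 - u i.1) / k0))).card : ℝ) := by
        intro i
        refine le_trans ?_ (Jc_lower (c := c) (u := u i.1 + i.2 * ((v i.1 - u i.1) / k0))
          (v := u i.1 + (i.2 + 1) * ((v i.1 - u i.1) / k0)) hWpos)
        refine mul_le_mul_of_nonneg_right ?_ hphi
        have h3 := hd i.1
        push_cast at h3 ⊢
        linarith
      have h3 : (δ' * (q * Real.log z) * (((Wp z p1).totient : ℝ) / Wp z p1)) ^ (b * k0) ≤
          ∏ i : Fin b × Fin k0, ((Jc c (Wp z p1) (u i.1 + i.2 * ((v i.1 - u i.1) / k0))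
            (u i.1 + (i.2 + 1) * ((v i.1 - u i.1) / k0))).card : ℝ) := by
        have h4 := Finset.prod_le_prod (s := (univ : Finset (Fin b × Fin k0)))
          (f := fun _ => δ' * (q * Real.log z) * (((Wp z p1).totient : ℝ) / Wp z p1))
          (g := fun i => ((Jc c (Wp z p1) (u i.1 + i.2 * ((v i.1 - u i.1) / k0))
            (u i.1 + (i.2 + 1) * ((v i.1 - u i.1) / k0))).card : ℝ))
          (fun i _ => by positivity) (fun i _ => h2 i)
        rwa [Finset.prod_const, Finset.card_univ, Fintype.card_prod, Fintype.card_fin,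
          Fintype.card_fin] at h4
      have h5 : (δ' * q * c0) ^ (b * k0) ≤
          (δ' * (q * Real.log z) * (((Wp z p1).totient : ℝ) / Wp z p1) * V1p (P0 z p1)) ^ (b * k0) := by
        refine pow_le_pow_left₀ (by positivity) ?_ _
        have h6 := hlo p1 hp1
        rw [div_le_iff₀ hlogpos] at h6
        calc δ' * q * c0 = δ' * q * c0 := by ring
          _ ≤ δ' * q * (((Wp z p1).totient : ℝ) / (Wp z p1 : ℝ) * V1p (P0 z p1) * Real.log z) :=
              mul_le_mul_of_nonneg_left h6 (by positivity)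
          _ = _ := by ring
      refine h5.trans ?_
      rw [mul_pow]
      exact mul_le_mul_of_nonneg_right h3 (by positivity)
    · intro j i
      refine ⟨Nat.le_add_right _ _, ?_⟩
      have h1 : (i + 1) * ((v j - u j) / k0) ≤ k0 * ((v j - u j) / k0) :=
        Nat.mul_le_mul_right _ i.2
      have h2 : k0 * ((v j - u j) / k0) ≤ v j - u j := Nat.mul_div_le _ _
      have h3 := huv j
      show u j + (i + 1) * ((v j - u j) / k0) ≤ v j
      omega
    · calc ((Jc c (Wp z p1) 0 T).card : ℝ) * V1p (P0 z p1) ≤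
          ((T : ℝ) + Wp z p1) * (((Wp z p1).totient : ℝ) / Wp z p1) * V1p (P0 z p1) :=
            mul_le_mul_of_nonneg_right (Jc_upper hWpos) hV1.le
        _ = ((T : ℝ) + Wp z p1) * (((Wp z p1).totient : ℝ) / Wp z p1 * V1p (P0 z p1)) := by ring
        _ ≤ ((T : ℝ) + Wp z p1) * (2 / Real.log z) :=
            mul_le_mul_of_nonneg_left (hup p1 hp1) (by positivity)
        _ ≤ (2 * L * (q * Real.log z)) * (2 / Real.log z) := by
            refine mul_le_mul_of_nonneg_right ?_ (by positivity)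
            linarith
        _ = 4 * L * q := by
            field_simp
            ring
  have h7 := Finset.sum_le_sum fun c (_ : c ∈ range (Wp z p1)) => hcls c
  rw [Finset.sum_const, Finset.card_range, nsmul_eq_mul, ← Finset.mul_sum,
    A2_sum hWpos (Ioc (z ^ q) (2 * z ^ q)) (fun n => Gb m u v T n)] at h7
  rw [div_mul_eq_mul_div, div_le_iff₀ hkM, mul_comm (((Finset.card _ : ℕ) : ℝ))]
  refine le_trans (le_of_eq ?_) h7
  field_simp

end Pool.Agent.LibGL22T
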