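import Pool.Agent.LibGL22T.A2
import Pool.Agent.LibSC93.T6

/-!
Row A3 (counting). As the finished `LibSC93.T5` (copy its proof), without Gaussian tails. `X` large: `z = ⌊(X/2)^(1/q)⌋₊`, `2 z^q ≤ X`, `z^q ≥ X/(2 * 2^q)`, `x = q log z`; `n ∈ (z^q, 2 z^q]` has `e^x < n ≤ 2 e^x ≤ e^(x+1)`.
-/

open Finset Filter

namespace Pool.Agent.LibGL22T

open Pool.Agent.LibRG87 Pool.Agent.LibLG5 Pool.Agent.LibPL63 Pool.Agent.LibSC93

open scoped Classical in
theorem count {b m : ℕ} (h : BCb b m) (L δ : ℝ) (hL : 1 ≤ L) (hδ : 0 < δ) :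
    ∃ c : ℝ, 0 < c ∧ ∀ B : ℝ, ∀ᶠ X : ℕ in atTop, ∃ x : ℝ, B ≤ x ∧
      ∀ (u v : Fin b → ℕ) (T : ℕ), (∀ i j, i < j → v i ≤ u j) → (∀ i, v i ≤ T) →
      (∀ i, δ * x ≤ (v i : ℝ) - u i) → (T : ℝ) ≤ L * (x + 1) →
      c * X ≤ (((Icc 1 X).filter fun n : ℕ =>
        Real.exp x < n ∧ (n : ℝ) ≤ Real.exp (x + 1) ∧ Gb m u v T n).card : ℝ) := by
  obtain ⟨q, κ, hq, hκ, hA⟩ := all_cls h L δ hL hδ
  refine ⟨κ * (1 / 2 / 2 ^ q), by positivity, fun B => ?_⟩
  have hq0 : q ≠ 0 := by omega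
  have hqR : (1 : ℝ) ≤ q := by exact_mod_cast hq
  have hqpos : (0 : ℝ) < q := by linarith
  -- the choice of z
  have htend : Tendsto (fun X : ℕ => ⌊((X : ℝ) * (1 / 2)) ^ ((q : ℝ)⁻¹)⌋₊) atTop atTop := by
    refine tendsto_nat_floor_atTop.comp ?_
    refine (tendsto_rpow_atTop (by positivity)).comp ?_
    exact tendsto_natCast_atTop_atTop.atTop_mul_const (by norm_num)
  have hlogB : ∀ᶠ z : ℕ in atTop, max B 1 ≤ Real.log z :=
    (Real.tendsto_log_atTop.comp tendsto_natCast_atTop_atTop).eventually_ge_atTop _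
  have hall := (hA.and hlogB).and (eventually_ge_atTop 2)
  filter_upwards [htend.eventually hall, eventually_ge_atTop 1] with X hX hX1
  obtain ⟨⟨hz3, hzlog⟩, hz2⟩ := hX
  set y := ((X : ℝ) * (1 / 2)) ^ ((q : ℝ)⁻¹) with hy
  set z := ⌊y⌋₊ with hz
  have hX0 : (0 : ℝ) < X := by exact_mod_cast hX1
  have hXe : (0 : ℝ) < X * (1 / 2) := by positivity
  have hy0 : 0 ≤ y := Real.rpow_nonneg hXe.le _
  have hyq : y ^ q = X * (1 / 2) := Real.rpow_inv_natCast_pow hXe.le hq0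
  have hzy : (z : ℝ) ≤ y := Nat.floor_le hy0
  have hz2R : (2 : ℝ) ≤ z := by exact_mod_cast hz2
  have hyz : y / 2 ≤ z := by
    have := Nat.lt_floor_add_one y
    rw [← hz] at this
    linarith
  have hzpos : (0 : ℝ) < z := by linarith
  have hlogz : 1 ≤ Real.log z := (le_max_right _ _).trans hzlog
  have hx : Real.exp (q * Real.log z) = (z : ℝ) ^ q := by
    rw [Real.exp_nat_mul, Real.exp_log hzpos]
  have hzq_le : (z : ℝ) ^ q ≤ X * (1 / 2) := by
    rw [← hyq]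
    exact pow_le_pow_left₀ hzpos.le hzy q
  have hzq_ge : X * (1 / 2) / 2 ^ q ≤ (z : ℝ) ^ q := by
    rw [← hyq, ← div_pow]
    exact pow_le_pow_left₀ (by positivity) hyz q
  refine ⟨q * Real.log z, ?_, ?_⟩
  · have h1 : B ≤ Real.log z := (le_max_left _ _).trans hzlog
    nlinarith
  · intro u v T hwin hT hlen hTL
    have h4 := hz3 u v T hwin hT hlen hTL
    have h10 : (((Ioc (z ^ q) (2 * z ^ q)).filter fun n => Gb m u v T n).card : ℝ) ≤
        (((Icc 1 X).filter fun n : ℕ => Real.exp (q * Real.log z) < n ∧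
        (n : ℝ) ≤ Real.exp (q * Real.log z + 1) ∧ Gb m u v T n).card : ℝ) := by
      refine Nat.cast_le.2 (Finset.card_le_card ?_)
      intro n hn
      rw [Finset.mem_filter, Finset.mem_Ioc] at hn
      rw [Finset.mem_filter, Finset.mem_Icc]
      obtain ⟨⟨hn1, hn2⟩, hn3⟩ := hn
      have hn1R : (z : ℝ) ^ q < n := by exact_mod_cast hn1
      have hn2R : (n : ℝ) ≤ 2 * (z : ℝ) ^ q := by exact_mod_cast hn2
      have hnX : (n : ℝ) ≤ X := by linarith
      refine ⟨⟨by omega, by exact_mod_cast hnX⟩, ?_, ?_, hn3⟩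
      · rw [hx]
        exact hn1R
      · rw [Real.exp_add, hx]
        have h2 : (2 : ℝ) ≤ Real.exp 1 := by
          have := Real.add_one_le_exp (1 : ℝ)
          linarith
        have h3 : (0 : ℝ) < (z : ℝ) ^ q := by positivity
        nlinarith
    refine le_trans ?_ h10
    refine le_trans ?_ h4
    calc κ * (1 / 2 / 2 ^ q) * X = κ * (X * (1 / 2) / 2 ^ q) := by ring
      _ ≤ κ * (z : ℝ) ^ q := mul_le_mul_of_nonneg_left hzq_ge hκ.le

end Pool.Agent.LibGL22T
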