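import Pool.Agent.LibGL22T.Defs
import Pool.Agent.LibGap5.Cor

/-!
Row A4 (from windows to gaps). Model: the finished `LibGap5.Cor` (`step`, `card_window`, `gaps_of_windows`; copy its private lemmas). `Evb 2 t e L n` (with `e = min(ε/2, half of the smallest difference of the t i)` say, so that the bins are disjoint):
let `i < j` be the two smallest indices of occupied bins, `p` = the last prime of the bin `i`, `p'` = the next prime; then `p'` is the first prime of the bin `j` (all primes of the window are in bins, the bins are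
ordered), so `p = p_k`, `p' = p_(k+1)`, `n < p_k`, `p_(k+1) ≤ n + L log n`, and `|p_(k+1) - p_k - (t j - t i) log n| < e log n`; `log p_k` and `log n` differ by at most `log 2` and `(t j - t i) log 2 ≤ (ε/2) log n`, `e log n ≤ (ε/2) log p_k` for large `n`.
So `n ↦ k` maps into the union over the pairs `i < j` of the sets counted by `gc`, each `k` is the image of at most `L log x` numbers `n` (`card_window`), `N = π(x)`-type bounds as in `gaps_of_windows` (`x = p_N`), and one of the at most `b²` pairs has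
at least the fraction `1/b²`.
-/

open Finset Filter

namespace Pool.Agent.LibGL22T

private theorem A4_nth_le_iff (n j : ℕ) : Nat.nth Nat.Prime j ≤ n ↔ j < Nat.primeCounting n := by
  have h : Nat.primeCounting n = Nat.count Nat.Prime (n + 1) := rfl
  rw [h, Nat.lt_nth_iff_count_lt Nat.infinite_setOfPred_prime, Nat.lt_succ_iff]

private theorem A4_card_window (P : ℕ) (B : ℝ) (hB : 0 ≤ B) (s : Finset ℕ)
    (hs : ∀ n ∈ s, n < P ∧ (P : ℝ) ≤ n + B) : (s.card : ℝ) ≤ B := by
  have hsub : s ⊆ Ico (P - ⌊B⌋₊) P := by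
    intro n hn
    obtain ⟨h1, h2⟩ := hs n hn
    rw [mem_Ico]
    refine ⟨?_, h1⟩
    have : ((P - n : ℕ) : ℝ) ≤ B := by
      rw [Nat.cast_sub h1.le]
      linarith
    have := Nat.le_floor this
    omega
  have h1 : s.card ≤ ⌊B⌋₊ := by
    refine (card_le_card hsub).trans ?_
    rw [Nat.card_Ico]
    omega
  calc (s.card : ℝ) ≤ (⌊B⌋₊ : ℝ) := by exact_mod_cast h1
    _ ≤ B := Nat.floor_le hB

private theorem A4_step {b : ℕ} {t : Fin b → ℝ} {e L : ℝ} (he : ∀ i j, i < j → t i + e ≤ t j) {n : ℕ}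
    (hlog : 0 < Real.log n) (hLn : 0 ≤ (n : ℝ) + L * Real.log n) (hev : Evb 2 t e L n) :
    ∃ (k : ℕ) (i j : Fin b), i < j ∧ n < Nat.nth Nat.Prime k ∧
      (Nat.nth Nat.Prime k : ℝ) ≤ n + L * Real.log n ∧
      |(Nat.nth Nat.Prime (k + 1) : ℝ) - Nat.nth Nat.Prime k - (t j - t i) * Real.log n| < e * Real.log n := by
  classical
  obtain ⟨h1, h2⟩ := hev
  set Pr := (Ioc n ⌊(n : ℝ) + L * Real.log n⌋₊).filter Nat.Prime with hPr
  set O := univ.filter fun i : Fin b => ∃ p ∈ Pr,
    t i * Real.log n < (p : ℝ) - n ∧ (p : ℝ) - n < (t i + e) * Real.log n with hO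
  have h2' : 2 ≤ O.card := le_trans h2 (le_of_eq (by rw [hO]))
  have hOne : O.Nonempty := card_pos.1 (by omega)
  set i := O.min' hOne with hi
  have hiO : i ∈ O := O.min'_mem hOne
  have hOe : (O.erase i).Nonempty := by
    rw [← card_pos, card_erase_of_mem hiO]
    omega
  set j := (O.erase i).min' hOe with hj
  have hjO : j ∈ O.erase i := (O.erase i).min'_mem hOe
  have hij : i < j := lt_of_le_of_ne (O.min'_le j (mem_of_mem_erase hjO)) (ne_of_mem_erase hjO).symm
  obtain ⟨q, hq, hq1, hq2⟩ := (mem_filter.1 (mem_of_mem_erase hjO)).2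
  set Pi := Pr.filter fun p : ℕ => t i * Real.log n < (p : ℝ) - n ∧ (p : ℝ) - n < (t i + e) * Real.log n with hPi
  have hPine : Pi.Nonempty := by
    obtain ⟨p, hp, hp1⟩ := (mem_filter.1 hiO).2
    exact ⟨p, mem_filter.2 ⟨hp, hp1⟩⟩
  set p := Pi.max' hPine with hp
  have hpPi : p ∈ Pi := Pi.max'_mem hPine
  obtain ⟨hpPr, hp1, hp2⟩ := mem_filter.1 hpPi
  obtain ⟨hpI, hpp⟩ := mem_filter.1 hpPr
  obtain ⟨hpn, hpM⟩ := mem_Ioc.1 hpI
  obtain ⟨hqI, hqp⟩ := mem_filter.1 hq
  obtain ⟨hqn, hqM⟩ := mem_Ioc.1 hqI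
  set k := Nat.count Nat.Prime p with hk
  have hkp : Nat.nth Nat.Prime k = p := Nat.nth_count hpp
  have hpq : p < q := by
    have h3 : (t i + e) * Real.log n ≤ t j * Real.log n :=
      mul_le_mul_of_nonneg_right (he i j hij) hlog.le
    have h4 : (p : ℝ) < q := by linarith
    exact_mod_cast h4
  have hp'q : Nat.nth Nat.Prime (k + 1) ≤ q := by
    have h3 : k + 1 ≤ Nat.count Nat.Prime q := Nat.count_strict_mono hpp hpq
    have h4 := (Nat.nth_strictMono Nat.infinite_setOfPred_prime).monotone h3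
    rwa [Nat.nth_count hqp] at h4
  have hpp' : p < Nat.nth Nat.Prime (k + 1) := by
    have h3 := Nat.nth_strictMono Nat.infinite_setOfPred_prime (Nat.lt_succ_self k)
    rwa [hkp] at h3
  set p' := Nat.nth Nat.Prime (k + 1) with hp'
  have hp'Pr : p' ∈ Pr := mem_filter.2 ⟨mem_Ioc.2 ⟨hpn.trans hpp', hp'q.trans hqM⟩,
    Nat.prime_nth_prime (k + 1)⟩
  obtain ⟨l, hl1, hl2⟩ := h1 p' hp'Pr
  have hlO : l ∈ O := mem_filter.2 ⟨mem_univ _, p', hp'Pr, hl1, hl2⟩
  have hli : l ≠ i := by
    intro h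
    rw [h] at hl1 hl2
    have h3 : p' ∈ Pi := mem_filter.2 ⟨hp'Pr, hl1, hl2⟩
    exact absurd (Pi.le_max' p' h3) (not_le.2 hpp')
  have hjl : j ≤ l := (O.erase i).min'_le l (mem_erase.2 ⟨hli, hlO⟩)
  have hlj : l = j := by
    by_contra hne
    have hlt : j < l := lt_of_le_of_ne hjl (Ne.symm hne)
    have h3 : (t j + e) * Real.log n ≤ t l * Real.log n :=
      mul_le_mul_of_nonneg_right (he j l hlt) hlog.le
    have h4 : (q : ℝ) < p' := by linarith
    have h5 : q < p' := by exact_mod_cast h4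
    omega
  rw [hlj] at hl1 hl2
  refine ⟨k, i, j, hij, ?_, ?_, ?_⟩
  · rw [hkp]
    exact hpn
  · rw [hkp]
    have h3 : (p : ℝ) ≤ (⌊(n : ℝ) + L * Real.log n⌋₊ : ℝ) := by exact_mod_cast hpM
    exact h3.trans (Nat.floor_le hLn)
  · rw [hkp, abs_lt]
    constructor
    · nlinarith
    · nlinarith

private theorem A4_sep {b : ℕ} (t : Fin b → ℝ) (ht : StrictMono t) (ε : ℝ) (hε : 0 < ε) :
    ∃ e : ℝ, 0 < e ∧ e ≤ ε ∧ ∀ i j, i < j → t i + e ≤ t j := by
  have h : ∀ᶠ e : ℝ in nhdsWithin 0 (Set.Ioi 0), ∀ p : Fin b × Fin b, p.1 < p.2 → t p.1 + e ≤ t p.2 := by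
    rw [eventually_all]
    intro p
    by_cases hp : p.1 < p.2
    · have h1 : (0 : ℝ) < t p.2 - t p.1 := sub_pos.2 (ht hp)
      filter_upwards [Ioc_mem_nhdsGT h1] with e he _
      have := he.2
      linarith
    · exact Eventually.of_forall fun e h => absurd h hp
  have h2 : ∀ᶠ e : ℝ in nhdsWithin 0 (Set.Ioi 0), e ∈ Set.Ioc 0 ε := Ioc_mem_nhdsGT hε
  obtain ⟨e, he1, he2⟩ := (h.and h2).exists
  exact ⟨e, he2.1, he2.2, fun i j hij => he1 (i, j) hij⟩

open scoped Classical in
theorem gaps_pairs {b : ℕ} (t : Fin b → ℝ) (L : ℝ) (ht : StrictMono t) (htL : ∀ i, 0 ≤ t i ∧ t i < L)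
    (H : ∀ ε : ℝ, 0 < ε → ∃ c : ℝ, 0 < c ∧ ∀ᶠ x : ℕ in atTop,
      c * x ≤ (((Icc 1 x).filter fun n : ℕ => Evb 2 t ε L n).card : ℝ)) (ε : ℝ) (hε : 0 < ε) :
    ∃ c : ℝ, 0 < c ∧ ∀ᶠ N : ℕ in atTop, ∃ i j, i < j ∧ c * N ≤ (gc (t j - t i) ε N : ℝ) := by
  obtain ⟨e, he0, heε, hsep⟩ := A4_sep t ht (ε / 4) (by positivity)
  obtain ⟨c, hc, hH⟩ := H e he0
  obtain ⟨x₀, h⟩ := eventually_atTop.1 hH
  -- `L > 0`
  have hL : 0 < L := by
    have h1 := h (max x₀ 1) (le_max_left _ _)
    have h2 : (0 : ℝ) < c * ((max x₀ 1 : ℕ) : ℝ) := by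
      have : (1 : ℝ) ≤ ((max x₀ 1 : ℕ) : ℝ) := by exact_mod_cast le_max_right _ _
      positivity
    have h3 := lt_of_lt_of_le h2 h1
    have h4 : 0 < ((Icc 1 (max x₀ 1)).filter fun n : ℕ => Evb 2 t e L n).card := by exact_mod_cast h3
    obtain ⟨n, hn⟩ := card_pos.1 h4
    obtain ⟨_, _, hn2⟩ := mem_filter.1 hn
    have h5 : 0 < (univ.filter fun i : Fin b => ∃ p ∈ (Ioc n ⌊(n : ℝ) + L * Real.log n⌋₊).filter Nat.Prime,
      t i * Real.log n < (p : ℝ) - n ∧ (p : ℝ) - n < (t i + e) * Real.log n).card := by omega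
    obtain ⟨i, _⟩ := card_pos.1 h5
    exact lt_of_le_of_lt (htL i).1 (htL i).2
  -- eventually in `n`
  have ev1 : ∀ᶠ n : ℕ in atTop, L * Real.log n ≤ n := by
    have := (Real.isLittleO_log_id_atTop.bound (show (0 : ℝ) < 1 / L by positivity))
    have h2 := tendsto_natCast_atTop_atTop (R := ℝ) |>.eventually this
    filter_upwards [h2] with n hn
    have h3 : ‖Real.log (n : ℝ)‖ ≤ 1 / L * ‖(n : ℝ)‖ := by simpa using hn
    rw [Real.norm_of_nonneg (Real.log_natCast_nonneg n), Real.norm_of_nonneg (by positivity)] at h3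
    calc L * Real.log n ≤ L * (1 / L * n) := mul_le_mul_of_nonneg_left h3 hL.le
      _ = n := by field_simp
  have evlog : Tendsto (fun n : ℕ => Real.log n) atTop atTop :=
    Real.tendsto_log_atTop.comp tendsto_natCast_atTop_atTop
  have ev2 : ∀ᶠ n : ℕ in atTop, 4 * (L * Real.log 2) / ε + 1 ≤ Real.log n := evlog.eventually_ge_atTop _
  obtain ⟨n1, hn1⟩ := eventually_atTop.1 (ev1.and (ev2.and (eventually_ge_atTop 2)))
  -- Chebyshev
  have hch := Chebyshev.eventually_primeCounting_le (ε := 1) one_pos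
  obtain ⟨X1, hX1⟩ := eventually_atTop.1 hch
  -- eventually in `x`
  have ev3 : ∀ᶠ x : ℕ in atTop, 2 * (L * Real.log x) + 2 ≤ x := by
    have hb : (0 : ℝ) < 1 / (4 * L) := by positivity
    have := (Real.isLittleO_log_id_atTop.bound hb)
    have h2 := tendsto_natCast_atTop_atTop (R := ℝ) |>.eventually this
    filter_upwards [h2, eventually_ge_atTop 4] with n hn hn4
    have h3 : ‖Real.log (n : ℝ)‖ ≤ 1 / (4 * L) * ‖(n : ℝ)‖ := by simpa using hn
    rw [Real.norm_of_nonneg (Real.log_natCast_nonneg n), Real.norm_of_nonneg (by positivity)] at h3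
    have h4 : L * Real.log n ≤ n / 4 := by
      calc L * Real.log n ≤ L * (1 / (4 * L) * n) := mul_le_mul_of_nonneg_left h3 hL.le
        _ = n / 4 := by field_simp
    have h5 : (4 : ℝ) ≤ n := by exact_mod_cast hn4
    linarith
  obtain ⟨x1, hx1⟩ := eventually_atTop.1 (ev3.and (evlog.eventually_ge_atTop 1))
  set x2 : ℕ := max (max x1 (2 * x₀ + 4)) (max (2 * ⌈(4 * (n1 : ℝ)) / c⌉₊ + 4) ⌈X1⌉₊) with hx2
  set bb : ℝ := ((b : ℝ) ^ 2 + 1) with hbb
  have hbb0 : 0 < bb := by positivity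
  refine ⟨c / (64 * L * bb), by positivity, eventually_atTop.2 ⟨x2, fun N hN => ?_⟩⟩
  by_contra hcon
  push Not at hcon
  set x : ℕ := Nat.nth Nat.Prime N with hx
  have hNx : N + 2 ≤ x := Nat.add_two_le_nth_prime N
  have hx2x : x2 ≤ x := by omega
  have hxx1 : x1 ≤ x := ((le_max_left _ _).trans (le_max_left _ _)).trans hx2x
  have hxx0 : 2 * x₀ + 4 ≤ x := ((le_max_right _ _).trans (le_max_left _ _)).trans hx2x
  have hxn1 : 2 * ⌈(4 * (n1 : ℝ)) / c⌉₊ + 4 ≤ x :=
    ((le_max_left _ _).trans (le_max_right _ _)).trans hx2x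
  have hxX1 : ⌈X1⌉₊ ≤ x := ((le_max_right _ _).trans (le_max_right _ _)).trans hx2x
  obtain ⟨hlx, hlx1⟩ := hx1 x hxx1
  set y : ℕ := x / 2 with hy
  have hyx : 2 * y ≤ x := Nat.mul_div_le x 2
  have hyx' : x ≤ 2 * y + 1 := by omega
  have hy0 : x₀ ≤ y := by omega
  have hyr : (x : ℝ) ≤ 2 * y + 1 := by exact_mod_cast hyx'
  have hy2 : (2 : ℝ) * y ≤ x := by exact_mod_cast hyx
  -- the set of good `n`
  set S : Finset ℕ := ((Icc 1 y).filter fun n : ℕ => Evb 2 t e L n) with hS
  have hScard : c * y ≤ (S.card : ℝ) := h y hy0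
  set S' : Finset ℕ := S.filter fun n => n1 ≤ n with hS'
  have hSS' : (S.card : ℝ) ≤ S'.card + n1 := by
    have h1 : S ⊆ S' ∪ range n1 := by
      intro n hn
      rcases lt_or_ge n n1 with h | h
      · exact mem_union_right _ (mem_range.2 h)
      · exact mem_union_left _ (mem_filter.2 ⟨hn, h⟩)
    have h2 := (card_le_card h1).trans (card_union_le _ _)
    rw [card_range] at h2
    exact_mod_cast h2
  set Gq : Fin b × Fin b → Finset ℕ := fun q => (range N).filter fun k =>
    |(Nat.nth Nat.Prime (k + 1) : ℝ) - Nat.nth Nat.Prime k -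
      (t q.2 - t q.1) * Real.log (Nat.nth Nat.Prime k)| < ε * Real.log (Nat.nth Nat.Prime k) with hGq
  set PP : Finset (Fin b × Fin b) := univ.filter fun q => q.1 < q.2 with hPP
  set G : Finset ℕ := PP.biUnion Gq with hG
  set B : ℝ := L * Real.log x with hB
  have hB0 : 0 ≤ B := mul_nonneg hL.le (by linarith)
  -- the map
  have hmap : ∀ n ∈ S', ∃ k : ℕ, k ∈ G ∧
      (n < Nat.nth Nat.Prime k ∧ (Nat.nth Nat.Prime k : ℝ) ≤ n + B) := by
    intro n hn
    obtain ⟨hnS, hnn1⟩ := mem_filter.1 hn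
    obtain ⟨hnI, hev⟩ := mem_filter.1 hnS
    obtain ⟨hn1', hny⟩ := mem_Icc.1 hnI
    obtain ⟨g1, g2, g3⟩ := hn1 n hnn1
    have hlog1 : 1 ≤ Real.log n := by
      have : 0 ≤ 4 * (L * Real.log 2) / ε := by
        have := Real.log_nonneg (show (1 : ℝ) ≤ 2 by norm_num)
        positivity
      linarith
    have hlogn : 0 < Real.log n := by linarith
    have hLn0 : 0 ≤ L * Real.log n := by positivity
    obtain ⟨k, i, j, hij, k1, k2, k3⟩ := A4_step hsep hlogn (by positivity) hev
    have hlogle : Real.log n ≤ Real.log x := by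
      refine Real.log_le_log (by positivity) ?_
      exact_mod_cast (by omega : n ≤ x)
    have hle : (n : ℝ) + L * Real.log n ≤ n + B := by
      have := mul_le_mul_of_nonneg_left hlogle hL.le
      rw [hB]
      linarith
    have hxpos : (0 : ℝ) < x := by
      have : 0 < x := by omega
      exact_mod_cast this
    have hkx : Nat.nth Nat.Prime k < x := by
      have h1 : (n : ℝ) ≤ y := by exact_mod_cast hny
      have h2 : (Nat.nth Nat.Prime k : ℝ) < x := by
        have : B < x - y := by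
          rw [hB]
          linarith
        linarith
      exact_mod_cast h2
    have hkN : k < N := by
      by_contra hcon2
      have h20 : Nat.nth Nat.Prime N ≤ Nat.nth Nat.Prime k :=
        (Nat.nth_strictMono Nat.infinite_setOfPred_prime).monotone (not_lt.1 hcon2)
      omega
    have hnr : (0 : ℝ) < n := by
      have : 0 < n := by omega
      exact_mod_cast this
    have hkr : (n : ℝ) < Nat.nth Nat.Prime k := by exact_mod_cast k1
    have hk2 : (Nat.nth Nat.Prime k : ℝ) ≤ 2 * n := by linarith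
    have hl1 : Real.log n ≤ Real.log (Nat.nth Nat.Prime k) := Real.log_le_log hnr hkr.le
    have hl2 : Real.log (Nat.nth Nat.Prime k) ≤ Real.log 2 + Real.log n := by
      rw [← Real.log_mul (by norm_num) hnr.ne']
      exact Real.log_le_log (by linarith) hk2
    have hτ0 : 0 ≤ t j - t i := (sub_pos.2 (ht hij)).le
    have hτL : t j - t i ≤ L := by
      have h1 := (htL j).2
      have h2 := (htL i).1
      linarith
    have hdiff0 : 0 ≤ (t j - t i) * Real.log (Nat.nth Nat.Prime k) - (t j - t i) * Real.log n := by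
      have := mul_le_mul_of_nonneg_left hl1 hτ0
      linarith
    have hdiff : (t j - t i) * Real.log (Nat.nth Nat.Prime k) - (t j - t i) * Real.log n ≤
        L * Real.log 2 := by
      have h0 : 0 ≤ Real.log (Nat.nth Nat.Prime k) - Real.log n := by linarith
      calc (t j - t i) * Real.log (Nat.nth Nat.Prime k) - (t j - t i) * Real.log n
          = (t j - t i) * (Real.log (Nat.nth Nat.Prime k) - Real.log n) := by ring
        _ ≤ L * (Real.log (Nat.nth Nat.Prime k) - Real.log n) := mul_le_mul_of_nonneg_right hτL h0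
        _ ≤ L * Real.log 2 := mul_le_mul_of_nonneg_left (by linarith) hL.le
    have hL2 : L * Real.log 2 ≤ ε / 4 * Real.log n := by
      have h1 : 4 * (L * Real.log 2) / ε ≤ Real.log n := by linarith
      rw [div_le_iff₀ hε] at h1
      linarith
    have hel : e * Real.log n ≤ ε / 4 * Real.log n := mul_le_mul_of_nonneg_right heε hlogn.le
    have hεl : ε * Real.log n ≤ ε * Real.log (Nat.nth Nat.Prime k) :=
      mul_le_mul_of_nonneg_left hl1 hε.le
    have hεn : 0 < ε * Real.log n := by positivity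
    have hk3 := abs_lt.1 k3
    have hmem : k ∈ Gq (i, j) := by
      refine mem_filter.2 ⟨mem_range.2 hkN, ?_⟩
      show |(Nat.nth Nat.Prime (k + 1) : ℝ) - Nat.nth Nat.Prime k -
        (t j - t i) * Real.log (Nat.nth Nat.Prime k)| < ε * Real.log (Nat.nth Nat.Prime k)
      rw [abs_lt]
      constructor
      · linarith [hk3.1]
      · linarith [hk3.2]
    exact ⟨k, mem_biUnion.2 ⟨(i, j), mem_filter.2 ⟨mem_univ _, hij⟩, hmem⟩, k1, k2.trans hle⟩
  choose! f hfG hf using hmap
  have hfib : ∀ k ∈ G, ((S'.filter fun n => f n = k).card : ℝ) ≤ B := by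
    intro k _
    refine A4_card_window (Nat.nth Nat.Prime k) B hB0 _ fun n hn => ?_
    obtain ⟨h1, h2⟩ := mem_filter.1 hn
    have h3 := hf n h1
    rwa [h2] at h3
  have hcard : (S'.card : ℝ) ≤ B * G.card := by
    have h1 := card_eq_sum_card_fiberwise (s := S') (t := G) (f := f) (fun n hn => hfG n hn)
    rw [h1]
    push_cast
    calc ∑ k ∈ G, ((S'.filter fun n => f n = k).card : ℝ) ≤ ∑ k ∈ G, B :=
          sum_le_sum hfib
      _ = B * G.card := by rw [sum_const, nsmul_eq_mul]; ring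
  -- sizes
  have hn1y : (n1 : ℝ) ≤ c * y / 4 := by
    have h1 : (4 * (n1 : ℝ)) / c ≤ ⌈(4 * (n1 : ℝ)) / c⌉₊ := Nat.le_ceil _
    have h2 : ⌈(4 * (n1 : ℝ)) / c⌉₊ ≤ y := by omega
    have h3 : (4 * (n1 : ℝ)) / c ≤ y := h1.trans (by exact_mod_cast h2)
    rw [div_le_iff₀ hc] at h3
    linarith
  have hNle : (N : ℝ) ≤ 3 * x / Real.log x := by
    have h1 : X1 ≤ (x : ℝ) := (Nat.le_ceil X1).trans (by exact_mod_cast hxX1)
    have h2 := hX1 x h1
    rw [Nat.floor_natCast] at h2
    have h3 : N ≤ Nat.primeCounting x := by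
      have : N < Nat.primeCounting x := (A4_nth_le_iff x N).1 le_rfl
      exact this.le
    have h4 : (N : ℝ) ≤ Nat.primeCounting x := by exact_mod_cast h3
    have h5 : Real.log 4 ≤ 2 := by
      have : Real.log 4 = 2 * Real.log 2 := by
        rw [show (4 : ℝ) = 2 ^ 2 by norm_num, Real.log_pow]
        norm_num
      rw [this]
      have := Real.log_two_lt_d9
      linarith
    have h6 : (Real.log 4 + 1) * (x : ℝ) / Real.log x ≤ 3 * x / Real.log x := by
      have : (0 : ℝ) < Real.log x := by linarith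
      gcongr
      linarith
    linarith
  have hlogpos : (0 : ℝ) < Real.log x := by linarith
  have hx4 : (4 : ℝ) ≤ x := by
    have : 4 ≤ x := by omega
    exact_mod_cast this
  have hyx4 : (x : ℝ) / 4 ≤ y := by linarith
  have hmain : 3 / 4 * c * y ≤ B * G.card := by linarith
  have h7 : 3 / 16 * c * x ≤ B * G.card := by
    have : c * (x / 4) ≤ c * y := mul_le_mul_of_nonneg_left hyx4 hc.le
    linarith
  -- the size of `G`
  set cc : ℝ := c / (64 * L * bb) with hcc
  have hcc0 : 0 < cc := by positivity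
  have hGcard : (G.card : ℝ) ≤ bb * (cc * N) := by
    have h8 : (G.card : ℝ) ≤ ∑ q ∈ PP, ((Gq q).card : ℝ) := by exact_mod_cast card_biUnion_le
    have h9 : ∑ q ∈ PP, ((Gq q).card : ℝ) ≤ ∑ q ∈ PP, cc * N := by
      refine sum_le_sum fun q hq => ?_
      have hq' : q.1 < q.2 := (mem_filter.1 hq).2
      have h10 := hcon q.1 q.2 hq'
      have h11 : gc (t q.2 - t q.1) ε N = (Gq q).card := rfl
      rw [h11] at h10
      exact h10.le
    have h12 : (PP.card : ℝ) ≤ bb := by
      have h13 : PP.card ≤ b * b := by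
        refine (card_filter_le _ _).trans ?_
        rw [card_univ, Fintype.card_prod, Fintype.card_fin]
      have h14 : (PP.card : ℝ) ≤ (b : ℝ) * b := by exact_mod_cast h13
      rw [hbb]
      nlinarith
    calc (G.card : ℝ) ≤ ∑ q ∈ PP, cc * N := h8.trans h9
      _ = PP.card * (cc * N) := by rw [sum_const, nsmul_eq_mul]
      _ ≤ bb * (cc * N) := mul_le_mul_of_nonneg_right h12 (by positivity)
  have h15 : bb * (cc * N) ≤ bb * (cc * (3 * x / Real.log x)) :=
    mul_le_mul_of_nonneg_left (mul_le_mul_of_nonneg_left hNle hcc0.le) hbb0.le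
  have h16 : B * (bb * (cc * (3 * x / Real.log x))) = 3 / 64 * c * x := by
    rw [hB, hcc]
    field_simp
  have h17 : B * G.card ≤ 3 / 64 * c * x := by
    rw [← h16]
    exact mul_le_mul_of_nonneg_left (hGcard.trans h15) hB0
  have h18 : 0 < c * (x : ℝ) := by positivity
  linarith

end Pool.Agent.LibGL22T
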