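import Pool.Agent.LibGL22T.Defs

/-!
Row A5 (the limit set). `closed_LSet`: `τ` in the closure: take `τ' ∈ LSet` with `|τ - τ'| < ε/2`; `gc τ' (ε/2) ≤ gc τ ε` (triangle inequality, `log ≥ 0`). `diff_mem`: for every `ε = 1/(r+1)` the hypothesis gives, along `φ`, infinitely often
a pair `i < j`; there are finitely many pairs (`Filter.frequently_finset...` or a contradiction with `Filter.Eventually` for all pairs), so some pair works frequently for this `r`; some pair works for infinitely many `r`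
(finitely many pairs; `Set.infinite`/pigeonhole, e.g. `Finite.exists_infinite_fiber`) and `gc` is monotone in `ε`.
-/

open Finset Filter MeasureTheory

namespace Pool.Agent.LibGL22T

private theorem A5_gc_mono {τ τ' ε ε' : ℝ} (h : |τ - τ'| + ε' ≤ ε) (N : ℕ) : gc τ' ε' N ≤ gc τ ε N := by
  unfold gc
  apply card_le_card
  intro k hk
  rw [mem_filter] at hk ⊢
  refine ⟨hk.1, ?_⟩
  set L : ℝ := Real.log (Nat.nth Nat.Prime k) with hL
  have hL0 : 0 ≤ L := Real.log_natCast_nonneg _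
  set x : ℝ := (Nat.nth Nat.Prime (k + 1) : ℝ) - Nat.nth Nat.Prime k with hx
  have h1 : |x - τ * L| ≤ |x - τ' * L| + |τ - τ'| * L := by
    have : x - τ * L = (x - τ' * L) + -((τ - τ') * L) := by ring
    rw [this]
    refine (abs_add_le _ _).trans ?_
    rw [abs_neg, abs_mul, abs_of_nonneg hL0]
  have h2 : |x - τ' * L| < ε' * L := hk.2
  have h3 : (|τ - τ'| + ε') * L ≤ ε * L := mul_le_mul_of_nonneg_right h hL0
  nlinarith

theorem closed_LSet (φ : ℕ → ℕ) : IsClosed (LSet φ) := by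
  apply isClosed_of_closure_subset
  intro τ hτ ε hε
  rw [Metric.mem_closure_iff] at hτ
  obtain ⟨τ', hτ', hd⟩ := hτ (ε / 2) (by positivity)
  obtain ⟨c, hc, hf⟩ := hτ' (ε / 2) (by positivity)
  refine ⟨c, hc, hf.mono fun j hj => hj.trans ?_⟩
  rw [Real.dist_eq] at hd
  exact_mod_cast A5_gc_mono (by linarith) (φ j)

theorem diff_mem {b : ℕ} (φ : ℕ → ℕ) (hφ : Tendsto φ atTop atTop) (t : Fin b → ℝ)
    (H : ∀ ε : ℝ, 0 < ε → ∃ c : ℝ, 0 < c ∧ ∀ᶠ N : ℕ in atTop, ∃ i j, i < j ∧ c * N ≤ (gc (t j - t i) ε N : ℝ)) :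
    ∃ i j, i < j ∧ t j - t i ∈ LSet φ := by
  by_contra hcon
  push Not at hcon
  have h1 : ∀ p : Fin b × Fin b, ∃ e : ℝ, 0 < e ∧ (p.1 < p.2 → ∀ c : ℝ, 0 < c →
      ∀ᶠ k : ℕ in atTop, (gc (t p.2 - t p.1) e (φ k) : ℝ) < c * φ k) := by
    rintro ⟨i, j⟩
    by_cases hij : i < j
    · have h2 := hcon i j hij
      simp only [LSet, Set.mem_ofPred_eq, not_forall, not_exists, not_and] at h2
      obtain ⟨e, he, h3⟩ := h2
      refine ⟨e, he, fun _ c hc => ?_⟩
      have h4 := h3 c hc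
      rw [Filter.not_frequently] at h4
      exact h4.mono fun k hk => not_le.1 hk
    · exact ⟨1, one_pos, fun h => absurd h hij⟩
  choose e he0 he using h1
  have h5 : ∀ᶠ ε : ℝ in nhdsWithin 0 (Set.Ioi 0), ∀ p : Fin b × Fin b, ε ∈ Set.Ioc 0 (e p) :=
    Filter.eventually_all.2 fun p => Ioc_mem_nhdsGT (he0 p)
  obtain ⟨ε, hε, hε0⟩ := (h5.and self_mem_nhdsWithin).exists
  obtain ⟨c, hc, hN⟩ := H ε hε0
  have h6 : ∀ᶠ k : ℕ in atTop, ∃ i j, i < j ∧ c * (φ k : ℝ) ≤ (gc (t j - t i) ε (φ k) : ℝ) :=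
    hφ.eventually hN
  have h7 : ∀ᶠ k : ℕ in atTop, ∀ p : Fin b × Fin b, p.1 < p.2 →
      (gc (t p.2 - t p.1) (e p) (φ k) : ℝ) < c * φ k := by
    rw [Filter.eventually_all]
    intro p
    by_cases hp : p.1 < p.2
    · exact (he p hp c hc).mono fun k hk _ => hk
    · exact Filter.Eventually.of_forall fun k h => absurd h hp
  obtain ⟨k, ⟨i, j, hij, hk⟩, hk7⟩ := (h6.and h7).exists
  have h8 := hk7 (i, j) hij
  have h9 : (gc (t j - t i) ε (φ k) : ℝ) ≤ (gc (t j - t i) (e (i, j)) (φ k) : ℝ) := by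
    exact_mod_cast A5_gc_mono (by simpa using (hε (i, j)).2) (φ k)
  exact absurd (hk.trans h9) (not_le.2 h8)

end Pool.Agent.LibGL22T
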