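import Pool.Agent.LibGL22T.A3

/-!
Row A6 (the final form of the first clause). As the finished `LibSC93.T6` (`T6_eta`, `T6_event`, `final`; copy them) with `U = 1`, `count` (row A3) in place of `T5`: `η` from `T6_eta`, `u i = ⌈(t i + η/4) x⌉₊`, `v i = ⌊(t i + η/2) x⌋₊`,
`T = ⌊L (x + 1)⌋₊`; `count` is used with `max L 1` and `δ = η/8`. A prime `p = n + a` of `(n, n + L log n]` has `a ≤ T`, so `u i < a ≤ v i` for some `i`, and then `t i log n < a < (t i + η) log n ≤ (t i + ε) log n`.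
Conversely a prime `n + a`, `u i < a ≤ v i`, lies in `(n, n + L log n]` because `t i + η ≤ L`; so the indices counted in `Gb` are counted in `Evb`.
-/

open Finset Filter

namespace Pool.Agent.LibGL22T

open Pool.Agent.LibRG87 Pool.Agent.LibLG5 Pool.Agent.LibPL63 Pool.Agent.LibSC93

private theorem A6_event {b m n : ℕ} {t : Fin b → ℝ} {ε L η x : ℝ} (ht0 : ∀ i, 0 ≤ t i)
    (hη : 0 < η) (hηε : η ≤ ε) (hηL : ∀ i, t i + η ≤ L)
    (hL : 0 < L) (hx1 : 4 * L < η * x) (hx0 : 0 < x)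
    (hn1 : Real.exp x < n) (hn2 : (n : ℝ) ≤ Real.exp (x + 1))
    (hG : Gb m (fun i => ⌈(t i + η / 4) * x⌉₊) (fun i => ⌊(t i + η / 2) * x⌋₊)
      ⌊L * (x + 1)⌋₊ n) : Evb m t ε L n := by
  obtain ⟨hp, hm⟩ := hG
  have hn0 : (0 : ℝ) < n := (Real.exp_pos _).trans hn1
  have hlog1 : x < Real.log n := (Real.lt_log_iff_exp_lt hn0).2 hn1
  have hlog2 : Real.log n ≤ x + 1 := (Real.log_le_iff_le_exp hn0).2 hn2
  have hlog0 : 0 < Real.log n := by linarith
  have hdist : ∀ (i : Fin b) (a : ℕ), ⌈(t i + η / 4) * x⌉₊ < a → a ≤ ⌊(t i + η / 2) * x⌋₊ →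
      t i * Real.log n < (a : ℝ) ∧ (a : ℝ) < (t i + ε) * Real.log n ∧
        (a : ℝ) ≤ L * Real.log n := by
    intro i a h1 h2
    have h3 : (t i + η / 4) * x < a := by
      have h4 : (⌈(t i + η / 4) * x⌉₊ : ℝ) < a := by exact_mod_cast h1
      exact (Nat.le_ceil _).trans_lt h4
    have h5 : (a : ℝ) ≤ (t i + η / 2) * x := by
      have h6 : (a : ℝ) ≤ (⌊(t i + η / 2) * x⌋₊ : ℝ) := by exact_mod_cast h2
      refine h6.trans (Nat.floor_le ?_)
      have := ht0 i
      positivity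
    have ht := ht0 i
    have h7 : (t i + η / 2) * x ≤ (t i + η / 2) * Real.log n :=
      mul_le_mul_of_nonneg_left hlog1.le (by linarith)
    have h8 : t i * Real.log n ≤ t i * (x + 1) := mul_le_mul_of_nonneg_left hlog2 ht
    have h9 : t i ≤ L := by linarith [hηL i]
    refine ⟨by nlinarith, ?_, ?_⟩
    · have h10 : (t i + η / 2) * Real.log n < (t i + ε) * Real.log n :=
        mul_lt_mul_of_pos_right (by linarith) hlog0
      linarith
    · have h10 : (t i + η / 2) * Real.log n ≤ L * Real.log n :=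
        mul_le_mul_of_nonneg_right (by linarith [hηL i]) hlog0.le
      linarith
  refine ⟨?_, hm.trans (Finset.card_le_card ?_)⟩
  · intro p hpp
    rw [Finset.mem_filter, Finset.mem_Ioc] at hpp
    obtain ⟨⟨h1, h2⟩, h3⟩ := hpp
    obtain ⟨a, rfl⟩ : ∃ a, p = n + a := ⟨p - n, by omega⟩
    have h4 : ((n + a : ℕ) : ℝ) ≤ (n : ℝ) + L * Real.log n := by
      refine (Nat.le_floor_iff ?_).1 h2
      positivity
    push_cast at h4
    have h5 : (a : ℝ) ≤ L * (x + 1) := by
      have h6 : L * Real.log n ≤ L * (x + 1) := mul_le_mul_of_nonneg_left hlog2 hL.le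
      linarith
    obtain ⟨j, hj1, hj2⟩ := hp a (by omega) (Nat.le_floor h5) h3
    obtain ⟨h7, h8, _⟩ := hdist j a hj1 hj2
    refine ⟨j, ?_, ?_⟩
    · push_cast
      linarith
    · push_cast
      linarith
  · intro i hi
    rw [Finset.mem_filter] at hi ⊢
    refine ⟨Finset.mem_univ _, ?_⟩
    obtain ⟨a, ha, hap⟩ := hi.2
    rw [Finset.mem_Ioc] at ha
    obtain ⟨h7, h8, h9⟩ := hdist i a ha.1 ha.2
    refine ⟨n + a, ?_, ?_, ?_⟩
    · rw [Finset.mem_filter, Finset.mem_Ioc]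
      have ha0 : 0 < a := lt_of_le_of_lt (Nat.zero_le _) ha.1
      refine ⟨⟨by omega, Nat.le_floor ?_⟩, hap⟩
      push_cast
      linarith
    · push_cast
      linarith
    · push_cast
      linarith

open scoped Classical in
theorem places {b m : ℕ} (hb : 1 ≤ b) (h : BCb b m) (t : Fin b → ℝ) (ε L : ℝ) (ht : StrictMono t)
    (htL : ∀ i, 0 ≤ t i ∧ t i < L) (hε : 0 < ε) :
    ∃ c : ℝ, 0 < c ∧ ∀ᶠ x : ℕ in atTop,
      c * x ≤ (((Icc 1 x).filter fun n : ℕ => Evb m t ε L n).card : ℝ) := by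
  obtain ⟨η, hη, hηε, hηL, hηt⟩ := T6_eta t ε L ht htL hε
  have hL0 : 0 < L := by
    have h1 := (htL ⟨0, hb⟩).1
    have h2 := (htL ⟨0, hb⟩).2
    linarith
  obtain ⟨c, hc, hX⟩ := count h (max L 1) (η / 8) (le_max_right _ _) (by positivity)
  refine ⟨c, hc, ?_⟩
  filter_upwards [hX (16 / η + 8 * L / η + 1)] with X hXX
  obtain ⟨x, hBx, hcount⟩ := hXX
  have h0a : 0 ≤ 16 / η := by positivity
  have h0b : 0 ≤ 8 * L / η := by positivity
  have hx0 : 0 < x := by linarith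
  have hx16 : 16 ≤ η * x := by
    have h1 : 16 / η ≤ x := by linarith
    rw [div_le_iff₀ hη] at h1
    linarith
  have hxL : 4 * L < η * x := by
    have h1 : 16 / η + 8 * L / η ≤ x := by linarith
    rw [← add_div, div_le_iff₀ hη] at h1
    linarith
  refine (hcount (fun i => ⌈(t i + η / 4) * x⌉₊) (fun i => ⌊(t i + η / 2) * x⌋₊)
    ⌊L * (x + 1)⌋₊ ?_ ?_ ?_ ?_).trans ?_
  · intro i j hij
    have h1 : (⌊(t i + η / 2) * x⌋₊ : ℝ) ≤ (t i + η / 2) * x := by
      refine Nat.floor_le ?_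
      have := (htL i).1
      positivity
    have h2 := Nat.le_ceil ((t j + η / 4) * x)
    have h3 := hηt i j hij
    have h4 : (t i + η / 2) * x ≤ (t j + η / 4) * x :=
      mul_le_mul_of_nonneg_right (by linarith) hx0.le
    have h5 : (⌊(t i + η / 2) * x⌋₊ : ℝ) ≤ (⌈(t j + η / 4) * x⌉₊ : ℝ) := by linarith
    exact_mod_cast h5
  · intro i
    refine Nat.floor_le_floor ?_
    have h1 := hηL i
    have h2 : (t i + η / 2) * x ≤ L * x := mul_le_mul_of_nonneg_right (by linarith) hx0.le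
    have h3 : L * x ≤ L * (x + 1) := mul_le_mul_of_nonneg_left (by linarith) hL0.le
    exact h2.trans h3
  · intro i
    have h1 := Nat.lt_floor_add_one ((t i + η / 2) * x)
    have h2 : (⌈(t i + η / 4) * x⌉₊ : ℝ) < (t i + η / 4) * x + 1 := by
      refine Nat.ceil_lt_add_one ?_
      have := (htL i).1
      positivity
    nlinarith
  · have h1 : (⌊L * (x + 1)⌋₊ : ℝ) ≤ L * (x + 1) := Nat.floor_le (by positivity)
    exact h1.trans (mul_le_mul_of_nonneg_right (le_max_left _ _) (by linarith))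
  · refine Nat.cast_le.2 (Finset.card_le_card ?_)
    intro n hn
    rw [Finset.mem_filter] at hn ⊢
    exact ⟨hn.1, A6_event (fun i => (htL i).1) hη hηε hηL hL0 hxL hx0 hn.2.1 hn.2.2.1
      hn.2.2.2⟩

end Pool.Agent.LibGL22T
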