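import Mathlib

/-!
Row A7 (pure measure theory, independent of everything). Take a strictly increasing `b : Fin k → ℝ` with `b 0 = 0`, all differences `b j - b i`, `i < j`, outside `S`, and `1 ≤ k ≤ 4` maximal (`k = 1`: `b = 0`). For every `x > b (last)` the `k + 1`
numbers `b, x` have a difference in `S` (`k + 1 ≤ 5`: by maximality if `k < 4`, by `H` if `k = 4`), and it is not a difference of two of the `b i`, so `x - b i ∈ S` for some `i`. Hence `(b last, X] ⊆ ⋃ i, (b i + (S ∩ [0, X]))` (`0 ≤ x - b i ≤ X`), and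
`X - b last ≤ k * volume (S ∩ [0, X]) ≤ 4 * volume (S ∩ [0, X])` (`measure_iUnion_le`/`measure_biUnion_finset_le`, translation invariance `measure_preimage_add`; no measurability of `S` is needed for outer measures). `C = (b last)/4`.
A possible organisation: induction on the number of points with sorted lists or `Finset ℝ` (cardinality `≤ 4`, `Nat.findGreatest`), `Finset.orderEmbOfFin` to get the strictly increasing `t : Fin 5 → ℝ`.
-/

open Finset Filter MeasureTheory

namespace Pool.Agent.LibGL22T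

private theorem A7_card (S : Set ℝ) (H : ∀ t : Fin 5 → ℝ, StrictMono t → ∃ i j, i < j ∧ t j - t i ∈ S)
    (A : Finset ℝ) (hA : ∀ x ∈ A, ∀ y ∈ A, x < y → y - x ∉ S) : A.card ≤ 4 := by
  by_contra hc
  push Not at hc
  obtain ⟨B, hBA, hB⟩ := Finset.exists_subset_card_eq (show 5 ≤ A.card by omega)
  obtain ⟨i, j, hij, hS⟩ := H (fun i => B.orderEmbOfFin hB i) (fun i j hij => by
    simpa using hij)
  exact hA _ (hBA (Finset.orderEmbOfFin_mem B hB i)) _ (hBA (Finset.orderEmbOfFin_mem B hB j))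
    (by simpa using hij) hS

private theorem A7_max (S : Set ℝ) (H : ∀ t : Fin 5 → ℝ, StrictMono t → ∃ i j, i < j ∧ t j - t i ∈ S) :
    ∃ A : Finset ℝ, A.Nonempty ∧ (∀ x ∈ A, 0 ≤ x) ∧ A.card ≤ 4 ∧
      ∀ x : ℝ, (∀ y ∈ A, y < x) → ∃ y ∈ A, x - y ∈ S := by
  classical
  let P : ℕ → Prop := fun k => ∃ A : Finset ℝ, (∀ x ∈ A, 0 ≤ x) ∧
    (∀ x ∈ A, ∀ y ∈ A, x < y → y - x ∉ S) ∧ A.card = k
  have hP1 : P 1 := by
    refine ⟨{0}, ?_, ?_, by simp⟩
    · intro x hx
      rw [Finset.mem_singleton] at hx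
      rw [hx]
    · intro x hx y hy hxy
      rw [Finset.mem_singleton] at hx hy
      rw [hx, hy] at hxy
      exact absurd hxy (lt_irrefl _)
  have hle : ∀ k, P k → k ≤ 4 := by
    rintro k ⟨A, -, hA, rfl⟩
    exact A7_card S H A hA
  have h1 : 1 ≤ Nat.findGreatest P 4 := Nat.le_findGreatest (by norm_num) hP1
  have hk : P (Nat.findGreatest P 4) := Nat.findGreatest_spec (m := 1) (by norm_num) hP1
  have hk1 : ¬ P (Nat.findGreatest P 4 + 1) := by
    intro h
    have := Nat.le_findGreatest (hle _ h) h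
    omega
  obtain ⟨A, hA0, hAS, hAc⟩ := hk
  refine ⟨A, ?_, hA0, hle _ ⟨A, hA0, hAS, rfl⟩, ?_⟩
  · rw [← Finset.card_pos]
    omega
  · intro x hx
    by_contra hn
    push Not at hn
    apply hk1
    have hxA : x ∉ A := fun h => lt_irrefl _ (hx x h)
    have hne : A.Nonempty := by
      rw [← Finset.card_pos]
      omega
    obtain ⟨a, ha⟩ := hne
    have hx0 : 0 ≤ x := (hA0 a ha).trans (hx a ha).le
    refine ⟨insert x A, ?_, ?_, ?_⟩
    · intro y hy
      rcases Finset.mem_insert.1 hy with rfl | hy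
      · exact hx0
      · exact hA0 y hy
    · intro u hu v hv huv
      rcases Finset.mem_insert.1 hu with hu' | hu'
      · rcases Finset.mem_insert.1 hv with hv' | hv'
        · rw [hu', hv'] at huv
          exact absurd huv (lt_irrefl _)
        · rw [hu'] at huv
          exact absurd (huv.trans (hx v hv')) (lt_irrefl _)
      · rcases Finset.mem_insert.1 hv with hv' | hv'
        · rw [hv']
          exact hn u hu'
        · exact hAS u hu' v hv' huv
    · rw [Finset.card_insert_of_notMem hxA, hAc]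

theorem vol_ge (S : Set ℝ) (H : ∀ t : Fin 5 → ℝ, StrictMono t → ∃ i j, i < j ∧ t j - t i ∈ S) :
    ∃ C : ℝ, ∀ X : ℝ, ENNReal.ofReal (X / 4 - C) ≤ volume (S ∩ Set.Icc 0 X) := by
  obtain ⟨A, hne, hA0, hAc, hA⟩ := A7_max S H
  set b := A.max' hne with hb
  refine ⟨b / 4, fun X => ?_⟩
  set T : Set ℝ := S ∩ Set.Icc 0 X with hT
  have hcov : Set.Ioc b X ⊆ ⋃ u ∈ A, (fun x : ℝ => x - u) ⁻¹' T := by
    intro x hx
    have hx1 : ∀ y ∈ A, y < x := fun y hy => lt_of_le_of_lt (Finset.le_max' A y hy) hx.1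
    obtain ⟨u, hu, huS⟩ := hA x hx1
    refine Set.mem_iUnion₂.2 ⟨u, hu, huS, ?_, ?_⟩
    · exact sub_nonneg.2 (hx1 u hu).le
    · have := hA0 u hu
      have := hx.2
      show x - u ≤ X
      linarith
  have h1 : volume (Set.Ioc b X) ≤ (A.card : ENNReal) * volume T := by
    calc volume (Set.Ioc b X) ≤ volume (⋃ u ∈ A, (fun x : ℝ => x - u) ⁻¹' T) :=
          measure_mono hcov
      _ ≤ ∑ u ∈ A, volume ((fun x : ℝ => x - u) ⁻¹' T) := measure_biUnion_finset_le _ _
      _ = ∑ _u ∈ A, volume T := by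
          refine Finset.sum_congr rfl fun u _ => ?_
          have h := measure_preimage_add_right (volume : Measure ℝ) (-u) T
          simpa [sub_eq_add_neg] using h
      _ = (A.card : ENNReal) * volume T := by
          rw [Finset.sum_const, nsmul_eq_mul]
  have h2 : ENNReal.ofReal (X - b) ≤ 4 * volume T := by
    rw [Real.volume_Ioc] at h1
    refine h1.trans ?_
    gcongr
    exact_mod_cast hAc
  have h3 : ENNReal.ofReal (X / 4 - b / 4) = ENNReal.ofReal (X - b) / 4 := by
    rw [show X / 4 - b / 4 = (X - b) / 4 by ring, ENNReal.ofReal_div_of_pos (by norm_num)]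
    congr 1
    norm_num
  rw [h3]
  refine ENNReal.div_le_of_le_mul ?_
  rw [mul_comm]
  exact h2

end Pool.Agent.LibGL22T
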