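import Pool.Agent.LibGL22T.A6
import Pool.Agent.LibGL22T.A4
import Pool.Agent.LibGL22T.A5
import Pool.Agent.LibGL22T.A7

/-!
Assembly of block T: the two new clauses from the interface.
-/

open Finset Filter MeasureTheory

namespace Pool.Agent.LibGL22T

open scoped Classical in
/-- first clause, in the form of the final statement -/
theorem clause1 (H : ∀ m : ℕ, 1 ≤ m → BCb (4 * m - 3) m) (m : ℕ) (hm : 1 ≤ m) (t : Fin (4 * m - 3) → ℝ) (ε L : ℝ)
    (ht : StrictMono t) (htL : ∀ i, 0 ≤ t i ∧ t i < L) (hε : 0 < ε) :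
    ∃ c : ℝ, 0 < c ∧ ∃ x₀ : ℕ, ∀ x : ℕ, x₀ ≤ x → c * x ≤ (((Icc 1 x).filter fun n : ℕ =>
      (∀ p ∈ (Ioc n ⌊(n : ℝ) + L * Real.log n⌋₊).filter Nat.Prime,
        ∃ i, t i * Real.log n < (p : ℝ) - n ∧ (p : ℝ) - n < (t i + ε) * Real.log n) ∧
      m ≤ (univ.filter fun i => ∃ p ∈ (Ioc n ⌊(n : ℝ) + L * Real.log n⌋₊).filter Nat.Prime,
        t i * Real.log n < (p : ℝ) - n ∧ (p : ℝ) - n < (t i + ε) * Real.log n).card).card : ℝ) := by
  obtain ⟨c, hc, h⟩ := places (by omega) (H m hm) t ε L ht htL hε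
  obtain ⟨x₀, hx⟩ := Filter.eventually_atTop.1 h
  refine ⟨c, hc, x₀, fun x hx0 => (hx x hx0).trans (Nat.cast_le.2 (Finset.card_le_card fun n hn => ?_))⟩
  rw [Finset.mem_filter] at hn ⊢
  exact hn

/-- second clause -/
theorem clause2 (H : ∀ m : ℕ, 1 ≤ m → BCb (4 * m - 3) m) (φ : ℕ → ℕ) (hφ : Tendsto φ atTop atTop) :
    (∀ t : Fin 5 → ℝ, StrictMono t → ∃ i j, i < j ∧ t j - t i ∈ LSet φ) ∧
    ∃ C : ℝ, ∀ X : ℝ, ENNReal.ofReal (X / 4 - C) ≤ volume (LSet φ ∩ Set.Icc 0 X) := by
  have key : ∀ t : Fin 5 → ℝ, StrictMono t → ∃ i j, i < j ∧ t j - t i ∈ LSet φ := by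
    intro t ht
    obtain ⟨i, j, hij, h⟩ := diff_mem φ hφ (fun i => t i - t 0)
      (gaps_pairs (fun i => t i - t 0) (t 4 - t 0 + 1) (fun i j hij => by
          have := ht hij
          show t i - t 0 < t j - t 0
          linarith) (fun i => ⟨by
            have := ht.monotone (Fin.zero_le i)
            linarith, by
            have := ht.monotone (Fin.le_last i)
            have h4 : t (Fin.last 4) = t 4 := rfl
            show t i - t 0 < t 4 - t 0 + 1
            linarith⟩)
        (fun ε hε => places (b := 5) (m := 2) (by norm_num) (H 2 (by norm_num)) _ ε _ (fun i j hij => by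
          have := ht hij
          show t i - t 0 < t j - t 0
          linarith) (fun i => ⟨by
            have := ht.monotone (Fin.zero_le i)
            linarith, by
            have := ht.monotone (Fin.le_last i)
            have h4 : t (Fin.last 4) = t 4 := rfl
            show t i - t 0 < t 4 - t 0 + 1
            linarith⟩) hε))
    refine ⟨i, j, hij, ?_⟩
    have h1 : t j - t 0 - (t i - t 0) = t j - t i := by ring
    rwa [h1] at h
  exact ⟨key, vol_ge _ key⟩

end Pool.Agent.LibGL22T
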