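import Pool.Agent.LibGL22T.A6
import Pool.Agent.LibGL22T.A4
import Pool.Agent.LibGL22T.A5

/-!
Block T for a general number `b` of bins: primes in two of `b` bins give, for every sequence `φ`, that among any `b` reals some difference is in `LSet φ`.
-/

open Finset Filter MeasureTheory

namespace Pool.Agent.LibGL22T

theorem diff_gen {b : ℕ} (hb : 1 ≤ b) (H : BCb b 2) (φ : ℕ → ℕ) (hφ : Tendsto φ atTop atTop)
    (t : Fin b → ℝ) (ht : StrictMono t) : ∃ i j, i < j ∧ t j - t i ∈ LSet φ := by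
  have h0 : ∀ i, t ⟨0, by omega⟩ ≤ t i := fun i => ht.monotone (Fin.mk_le_of_le_val (Nat.zero_le _))
  have h1 : ∀ i, t i ≤ t ⟨b - 1, by omega⟩ := fun i =>
    ht.monotone (show i.val ≤ b - 1 by have := i.2; omega)
  have hm : StrictMono fun i => t i - t ⟨0, by omega⟩ := fun i j hij => by
    have := ht hij
    show t i - t ⟨0, by omega⟩ < t j - t ⟨0, by omega⟩
    linarith
  have hr : ∀ i, 0 ≤ t i - t ⟨0, by omega⟩ ∧ t i - t ⟨0, by omega⟩ < t ⟨b - 1, by omega⟩ - t ⟨0, by omega⟩ + 1 :=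
    fun i => ⟨by linarith [h0 i], by linarith [h1 i]⟩
  obtain ⟨i, j, hij, h⟩ := diff_mem φ hφ (fun i => t i - t ⟨0, by omega⟩)
    (gaps_pairs (fun i => t i - t ⟨0, by omega⟩) (t ⟨b - 1, by omega⟩ - t ⟨0, by omega⟩ + 1) hm hr
      (fun ε hε => places hb H _ ε _ hm hr hε))
  refine ⟨i, j, hij, ?_⟩
  have h2 : t j - t ⟨0, by omega⟩ - (t i - t ⟨0, by omega⟩) = t j - t i := by ring
  rwa [h2] at h

end Pool.Agent.LibGL22T
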